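import Pool.Agent.H21.ET.Law

/-!
# Consequences of the variance law on windows
-/

set_option autoImplicit false

open Finset

namespace Pool.Agent.H21.ET

open Pool.Agent.W247.ET Pool.Agent.H38.ETU
open Pool.Agent.W962.ET (rf r_eq rs rep_eq mem_rs rep_even)

lemma lowS_card (A : Set ℕ) (M : ℕ) : (lowS A M).card = (A ∩ Set.Iio M).ncard := by
  classical
  rw [← Set.ncard_coe_finset]
  congr 1
  ext a
  rw [mem_coe, mem_lowS]
  simp only [Set.mem_inter_iff, Set.mem_Iio]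
  tauto

lemma rep_le_of_sub (A : Set ℕ) (S : Finset ℕ) (hS : ∀ a ∈ S, a ∈ A) (n : ℕ) :
    rep S n ≤ r A n := by
  classical
  rw [r_eq, rep_eq]
  apply card_le_card
  intro p hp
  obtain ⟨⟨h1, h2⟩, h3⟩ := mem_rs.mp hp
  unfold rf
  rw [mem_filter, HasAntidiagonal.mem_antidiagonal]
  exact ⟨h3, hS _ h1, hS _ h2⟩

lemma card_sq_le (A : Set ℕ) (S : Finset ℕ) (hS : ∀ a ∈ S, a ∈ A) (x y : ℕ)
    (hx : ∀ a ∈ S, x ≤ a) (hy : ∀ a ∈ S, 2 * a ≤ y) :
    S.card ^ 2 ≤ ∑ n ∈ Icc x y, r A n := by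
  have h1 : (S ×ˢ S).card = ∑ n ∈ Icc x y, rep S n := by
    unfold rep
    apply card_eq_sum_card_fiberwise
    intro p hp
    rw [mem_coe, mem_product] at hp
    show p.1 + p.2 ∈ ((Icc x y : Finset ℕ) : Set ℕ)
    rw [mem_coe, mem_Icc]
    have h1 := hx _ hp.1
    have h2 := hx _ hp.2
    have h3 := hy _ hp.1
    have h4 := hy _ hp.2
    omega
  rw [pow_two, ← card_product, h1]
  exact sum_le_sum fun n _ => rep_le_of_sub A S hS n

/-- **The law on `[x ^ 2, N]` for all sets.** -/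
theorem lawX (l g : ℕ) (hl : 1 ≤ l) (hlg : l ≤ g)
    (hcond : ((l : ℝ) + g - 1369 / 2520) ^ 2 < 4 * l * g) :
    ∃ δ : ℝ, 0 < δ ∧ ∃ C : ℝ, ∀ (A : Set ℕ) (x N : ℕ), 1 ≤ x → x ^ 2 ≤ N →
      δ * Real.log ((N : ℝ) / (x : ℝ) ^ 2) - C ≤ DlowL l A (x ^ 2) N + DhighL g A x N := by
  obtain ⟨δ, hδ, C, hC, h0⟩ := lawL l g hl hlg hcond
  have hc : 0 < 4 * C + 1 := by linarith
  have hlog2 : 0 ≤ Real.log 2 := Real.log_nonneg (by norm_num)
  refine ⟨δ / (4 * C + 1), by positivity,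
    (C * (8 * g + 7) + δ * Real.log 2) / (4 * C + 1), ?_⟩
  intro A x N hx hxN
  have hx0 : (0 : ℝ) < x := by exact_mod_cast hx
  have hM : 1 ≤ x ^ 2 := Nat.one_le_pow _ _ hx
  have hN0 : (0 : ℝ) < N := by exact_mod_cast (by omega : 0 < N)
  have hD1 := DlowL_nonneg l A (x ^ 2) N
  have hD2 := DhighL_nonneg g A x N
  set Dl := DlowL l A (x ^ 2) N with hDl
  set Dh := DhighL g A x N with hDh
  have hg0 : (0 : ℝ) ≤ g := Nat.cast_nonneg _
  rw [div_mul_eq_mul_div, div_sub_div_same, div_le_iff₀ hc]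
  by_cases hN : N < 2 * x ^ 2
  · have h1 : Real.log ((N : ℝ) / (x : ℝ) ^ 2) ≤ Real.log 2 := by
      apply Real.log_le_log (by positivity)
      rw [div_le_iff₀ (by positivity)]
      exact_mod_cast hN.le
    have h2 := mul_le_mul_of_nonneg_left h1 hδ.le
    have h3 : 0 ≤ C * (8 * g + 7) := by positivity
    have h4 : 0 ≤ (Dl + Dh) * (4 * C + 1) := by positivity
    linarith
  push Not at hN
  have h1 := h0 A (x ^ 2) N hM hxN
  have h2 : DhighL g A (x ^ 2) N ≤ Dh := DhighL_mono g A (Nat.le_self_pow two_ne_zero x) le_rfl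
  set M := x ^ 2 with hMdef
  have hMr : (M : ℝ) = (x : ℝ) ^ 2 := by rw [hMdef]; push_cast; ring
  have hM0 : (0 : ℝ) < M := by rw [hMr]; positivity
  -- the elements in `[x, M)`
  set S := cutL A x (M - 1) with hS
  have h3 : (lowS A M).card ≤ x + S.card := by
    have : lowS A M ⊆ range x ∪ S := by
      intro a ha
      rw [mem_lowS] at ha
      rw [mem_union, mem_range]
      by_cases h : a < x
      · exact Or.inl h
      · exact Or.inr (mem_cutL.2 ⟨⟨by omega, by omega⟩, ha.2⟩)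
    calc (lowS A M).card ≤ (range x ∪ S).card := card_le_card this
      _ ≤ (range x).card + S.card := card_union_le _ _
      _ = x + S.card := by rw [card_range]
  have h4 : S.card ^ 2 ≤ ∑ n ∈ Icc x (2 * M), r A n :=
    card_sq_le A S (fun a ha => (mem_cutL.1 ha).2) x (2 * M) (fun a ha => (mem_cutL.1 ha).1.1)
      (fun a ha => by have := (mem_cutL.1 ha).1.2; omega)
  have h5 : ∑ n ∈ Icc x (2 * M), (r A n : ℝ) ≤ 2 * M * (2 * g + 1) + 2 * M * Dh := by
    classical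
    have h6 : ∑ n ∈ Icc x (2 * M), (r A n : ℝ) ≤ ∑ n ∈ Icc x (2 * M), ((2 * (g : ℝ) + 1) +
        if 2 * g + 2 ≤ r A n then 2 * M * ((r A n : ℝ) ^ 2 / n) else 0) := by
      apply sum_le_sum
      intro n hn
      rw [mem_Icc] at hn
      have hn0 : (0 : ℝ) < n := by exact_mod_cast (by omega : 0 < n)
      split_ifs with h
      · have h7 : (r A n : ℝ) ≤ (r A n : ℝ) ^ 2 := by
          have : r A n ≤ r A n ^ 2 := Nat.le_self_pow two_ne_zero _
          exact_mod_cast this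
        have h8 : (r A n : ℝ) ^ 2 ≤ 2 * M * ((r A n : ℝ) ^ 2 / n) := by
          rw [mul_div_assoc', le_div_iff₀ hn0, mul_comm]
          apply mul_le_mul_of_nonneg_right _ (sq_nonneg _)
          exact_mod_cast hn.2
        linarith
      · have : (r A n : ℝ) ≤ 2 * g + 1 := by
          have : r A n ≤ 2 * g + 1 := by omega
          exact_mod_cast this
        linarith
    rw [sum_add_distrib, ← sum_filter, ← mul_sum, sum_const, nsmul_eq_mul] at h6
    have h7 : ((Icc x (2 * M)).card : ℝ) ≤ 2 * M := by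
      rw [Nat.card_Icc]
      have : 2 * M + 1 - x ≤ 2 * M := by omega
      exact_mod_cast this
    have h8 : ∑ n ∈ (Icc x (2 * M)).filter (fun n => 2 * g + 2 ≤ r A n), (r A n : ℝ) ^ 2 / n ≤
        Dh := DhighL_mono g A le_rfl hN
    have h9 := mul_le_mul_of_nonneg_right h7 (by positivity : 0 ≤ 2 * (g : ℝ) + 1)
    have h10 := mul_le_mul_of_nonneg_left h8 (by positivity : 0 ≤ 2 * (M : ℝ))
    linarith
  have h6 : ((lowS A M).card : ℝ) ^ 2 / M ≤ 8 * g + 6 + 4 * Dh := by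
    rw [div_le_iff₀ hM0]
    have h7 : ((lowS A M).card : ℝ) ≤ x + S.card := by exact_mod_cast h3
    have h8 : ((lowS A M).card : ℝ) ^ 2 ≤ (x + S.card) ^ 2 :=
      pow_le_pow_left₀ (Nat.cast_nonneg _) h7 2
    have h9 : (S.card : ℝ) ^ 2 ≤ ∑ n ∈ Icc x (2 * M), (r A n : ℝ) := by exact_mod_cast h4
    nlinarith [sq_nonneg ((x : ℝ) - S.card)]
  have h7 := mul_le_mul_of_nonneg_left h6 hC
  have h8 : 0 ≤ 4 * C * Dl := by positivity
  rw [hMr] at h1 h7
  have h9 : 0 ≤ δ * Real.log 2 := by positivity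
  linarith

/-- **Windows.** -/
theorem window (l g : ℕ) (hl : 1 ≤ l) (hlg : l ≤ g)
    (hcond : ((l : ℝ) + g - 1369 / 2520) ^ 2 < 4 * l * g) :
    ∃ Λ : ℕ, ∀ (A : Set ℕ) (x : ℕ), 1 ≤ x → ∃ n, x ≤ n ∧ n ≤ Λ * x ^ 2 ∧
      (r A n ≤ 2 * l - 2 ∨ 2 * g + 2 ≤ r A n) := by
  classical
  obtain ⟨δ, hδ, C, h0⟩ := lawX l g hl hlg hcond
  obtain ⟨Λ, hΛ⟩ := exists_nat_gt (Real.exp (|C| / δ))
  have hΛ1 : (1 : ℝ) < Λ := lt_of_le_of_lt (Real.one_le_exp (by positivity)) hΛ
  refine ⟨Λ, fun A x hx => ?_⟩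
  by_contra hcon
  push Not at hcon
  have hx0 : (0 : ℝ) < x := by exact_mod_cast hx
  have hx2 : x ^ 2 ≤ Λ * x ^ 2 := Nat.le_mul_of_pos_left _ (by
    have : (0 : ℝ) < Λ := by linarith
    exact_mod_cast this)
  have h1 := h0 A x (Λ * x ^ 2) hx hx2
  have h2 : DlowL l A (x ^ 2) (Λ * x ^ 2) = 0 := by
    unfold DlowL
    apply sum_eq_zero
    intro n hn
    rw [mem_filter, mem_Icc] at hn
    have := hcon n ((Nat.le_self_pow two_ne_zero x).trans hn.1.1) hn.1.2
    omega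
  have h3 : DhighL g A x (Λ * x ^ 2) = 0 := by
    unfold DhighL
    apply sum_eq_zero
    intro n hn
    rw [mem_filter, mem_Icc] at hn
    have := hcon n hn.1.1 hn.1.2
    omega
  rw [h2, h3] at h1
  have e : ((Λ * x ^ 2 : ℕ) : ℝ) / (x : ℝ) ^ 2 = Λ := by
    push_cast
    field_simp
  rw [e] at h1
  have h4 : |C| / δ < Real.log Λ := by
    rw [Real.lt_log_iff_exp_lt (by linarith)]
    exact hΛ
  rw [div_lt_iff₀ hδ] at h4
  have := le_abs_self C
  linarith

open Classical in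
/-- **Dyadic scales.** -/
theorem scales (l g : ℕ) (hl : 1 ≤ l) (hlg : l ≤ g)
    (hcond : ((l : ℝ) + g - 1369 / 2520) ^ 2 < 4 * l * g) :
    ∃ C : ℕ, ∀ (A : Set ℕ) (K : ℕ), Nat.log 2 K ≤ ((range K).filter
      (fun k => ∃ n, 2 ^ k ≤ n ∧ n < 2 ^ (k + 1) ∧
        (r A n ≤ 2 * l - 2 ∨ 2 * g + 2 ≤ r A n))).card + C := by
  obtain ⟨Λ, h0⟩ := window l g hl hlg hcond
  -- `Λ < 2 ^ a`
  obtain ⟨a, ha⟩ : ∃ a : ℕ, Λ < 2 ^ a := ⟨Λ, Nat.lt_two_pow_self⟩
  refine ⟨a + 1, fun A K => ?_⟩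
  let P : ℕ → Prop := fun k => ∃ n, 2 ^ k ≤ n ∧ n < 2 ^ (k + 1) ∧
    (r A n ≤ 2 * l - 2 ∨ 2 * g + 2 ≤ r A n)
  change Nat.log 2 K ≤ ((range K).filter P).card + (a + 1)
  have h1 : ∀ k, ∃ k', k ≤ k' ∧ k' < 2 * k + a ∧ P k' := by
    intro k
    obtain ⟨n, hn1, hn2, hn3⟩ := h0 A (2 ^ k) (Nat.one_le_two_pow)
    have hn0 : n ≠ 0 := by
      have : 0 < 2 ^ k := by positivity
      omega
    refine ⟨Nat.log 2 n, Nat.le_log_of_pow_le (by norm_num) hn1, ?_, n,
      Nat.pow_log_le_self 2 hn0, Nat.lt_pow_succ_log_self (by norm_num) n, hn3⟩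
    apply Nat.log_lt_of_lt_pow hn0
    calc n ≤ Λ * (2 ^ k) ^ 2 := hn2
      _ < 2 ^ a * (2 ^ k) ^ 2 := Nat.mul_lt_mul_of_pos_right ha (by positivity)
      _ = 2 ^ (2 * k + a) := by rw [← pow_mul, ← pow_add]; congr 1; ring
  have h2 : ∀ j : ℕ, j ≤ ((range ((2 ^ j - 1) * a)).filter P).card := by
    intro j
    induction j with
    | zero => simp
    | succ j ih =>
      obtain ⟨k', hk1, hk2, hk3⟩ := h1 ((2 ^ j - 1) * a)
      have h3 : 2 * ((2 ^ j - 1) * a) + a = (2 ^ (j + 1) - 1) * a := by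
        have h4 : 1 ≤ 2 ^ j := Nat.one_le_two_pow
        obtain ⟨b, hb⟩ := Nat.exists_eq_add_of_le h4
        have h5 : 2 ^ (j + 1) - 1 = 2 * b + 1 := by rw [pow_succ, hb]; omega
        rw [h5, hb, Nat.add_sub_cancel_left]
        ring
      have h4 : insert k' ((range ((2 ^ j - 1) * a)).filter P) ⊆
          (range ((2 ^ (j + 1) - 1) * a)).filter P := by
        intro b hb
        rw [mem_insert] at hb
        rw [mem_filter, mem_range]
        rcases hb with rfl | hb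
        · exact ⟨by omega, hk3⟩
        · rw [mem_filter, mem_range] at hb
          exact ⟨by omega, hb.2⟩
      have h5 := card_le_card h4
      rw [card_insert_of_notMem (by
        rw [mem_filter, mem_range]
        omega)] at h5
      omega
  rcases Nat.eq_zero_or_pos K with hK | hK
  · subst hK
    simp
  by_cases hj : Nat.log 2 K ≤ a + 1
  · omega
  have h3 := h2 (Nat.log 2 K - (a + 1))
  have h4 : (2 ^ (Nat.log 2 K - (a + 1)) - 1) * a ≤ K := by
    calc (2 ^ (Nat.log 2 K - (a + 1)) - 1) * a ≤ 2 ^ (Nat.log 2 K - (a + 1)) * 2 ^ (a + 1) := by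
          apply Nat.mul_le_mul (Nat.sub_le _ _)
          have : a < 2 ^ a := Nat.lt_two_pow_self
          rw [pow_succ]
          omega
      _ = 2 ^ Nat.log 2 K := by rw [← pow_add]; congr 1; omega
      _ ≤ K := Nat.pow_log_le_self 2 (by omega)
  have h5 : ((range ((2 ^ (Nat.log 2 K - (a + 1)) - 1) * a)).filter P).card ≤
      ((range K).filter P).card := by
    apply card_le_card
    apply filter_subset_filter
    exact range_subset_range.2 h4
  omega

open Classical in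
/-- **Bounded representation functions: positive proportion in every window.** -/
theorem bounded_window (l g : ℕ) (hl : 1 ≤ l) (hlg : l ≤ g)
    (hcond : ((l : ℝ) + g - 1369 / 2520) ^ 2 < 4 * l * g) :
    ∀ K : ℕ, ∃ Λ : ℕ, ∀ A : Set ℕ, (∀ n, r A n ≤ K) → ∀ M : ℕ, 1 ≤ M →
      M ≤ ((Icc M (Λ * M)).filter (fun n => r A n ≤ 2 * l - 2 ∨ 2 * g + 2 ≤ r A n)).card := by
  obtain ⟨δ, hδ, C, hC, h0⟩ := lawL l g hl hlg hcond
  intro K
  obtain ⟨Λ, hΛ⟩ := exists_nat_gt (Real.exp ((C * (1 + 2 * K) + (1 + (K : ℝ) ^ 2)) / δ))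
  have hΛ1 : (1 : ℝ) < Λ := lt_of_le_of_lt (Real.one_le_exp (by positivity)) hΛ
  refine ⟨Λ, fun A hA M hM => ?_⟩
  have hM0 : (0 : ℝ) < M := by exact_mod_cast hM
  have hΛM : M ≤ Λ * M := Nat.le_mul_of_pos_left _ (by
    have : (0 : ℝ) < Λ := by linarith
    exact_mod_cast this)
  have h1 := h0 A M (Λ * M) hM hΛM
  have e : ((Λ * M : ℕ) : ℝ) / (M : ℝ) = Λ := by
    push_cast
    field_simp
  rw [e] at h1
  have h2 : C * (1 + 2 * K) + (1 + (K : ℝ) ^ 2) < δ * Real.log Λ := by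
    have h4 : (C * (1 + 2 * K) + (1 + (K : ℝ) ^ 2)) / δ < Real.log Λ := by
      rw [Real.lt_log_iff_exp_lt (by linarith)]
      exact hΛ
    rw [div_lt_iff₀ hδ] at h4
    linarith
  have h3 : ((lowS A M).card : ℝ) ^ 2 / M ≤ 2 * K := by
    rw [div_le_iff₀ hM0]
    have h4 : (lowS A M).card ^ 2 ≤ ∑ n ∈ Icc 0 (2 * M - 1), r A n := by
      have h5 : (lowS A M ×ˢ lowS A M).card = ∑ n ∈ Icc 0 (2 * M - 1), rep (lowS A M) n := by
        unfold rep
        apply card_eq_sum_card_fiberwise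
        intro p hp
        rw [mem_coe, mem_product] at hp
        show p.1 + p.2 ∈ ((Icc 0 (2 * M - 1) : Finset ℕ) : Set ℕ)
        rw [mem_coe, mem_Icc]
        have h1 := (mem_lowS.1 hp.1).1
        have h2 := (mem_lowS.1 hp.2).1
        omega
      rw [pow_two, ← card_product, h5]
      exact sum_le_sum fun n _ => rep_le_of_sub A _ (fun a ha => (mem_lowS.1 ha).2) n
    have h6 : ∑ n ∈ Icc 0 (2 * M - 1), r A n ≤ 2 * M * K := by
      calc ∑ n ∈ Icc 0 (2 * M - 1), r A n ≤ ∑ _n ∈ Icc 0 (2 * M - 1), K :=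
            sum_le_sum fun n _ => hA n
        _ = 2 * M * K := by
            rw [sum_const, Nat.card_Icc, smul_eq_mul]
            congr 1
            omega
    have h7 : ((lowS A M).card : ℝ) ^ 2 ≤ 2 * M * K := by exact_mod_cast h4.trans h6
    linarith
  set F := (Icc M (Λ * M)).filter (fun n => r A n ≤ 2 * l - 2 ∨ 2 * g + 2 ≤ r A n) with hF
  have h4 : DlowL l A M (Λ * M) + DhighL g A M (Λ * M) ≤ (1 + (K : ℝ) ^ 2) * (F.card / M) := by
    have h5 : DlowL l A M (Λ * M) ≤ ∑ n ∈ F, 1 / (M : ℝ) := by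
      calc DlowL l A M (Λ * M) ≤ ∑ n ∈ F, 1 / (n : ℝ) := by
            unfold DlowL
            apply sum_le_sum_of_subset_of_nonneg
            · intro n hn
              rw [mem_filter] at hn
              rw [hF, mem_filter]
              exact ⟨hn.1, Or.inl hn.2⟩
            · intro n _ _
              positivity
        _ ≤ _ := by
            apply sum_le_sum
            intro n hn
            rw [hF, mem_filter, mem_Icc] at hn
            apply one_div_le_one_div_of_le hM0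
            exact_mod_cast hn.1.1
    have h6 : DhighL g A M (Λ * M) ≤ ∑ n ∈ F, (K : ℝ) ^ 2 * (1 / (M : ℝ)) := by
      calc DhighL g A M (Λ * M) ≤ ∑ n ∈ F, (r A n : ℝ) ^ 2 / (n : ℝ) := by
            unfold DhighL
            apply sum_le_sum_of_subset_of_nonneg
            · intro n hn
              rw [mem_filter] at hn
              rw [hF, mem_filter]
              exact ⟨hn.1, Or.inr hn.2⟩
            · intro n _ _
              positivity
        _ ≤ _ := by
            apply sum_le_sum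
            intro n hn
            rw [hF, mem_filter, mem_Icc] at hn
            have h7 : (M : ℝ) ≤ n := by exact_mod_cast hn.1.1
            have h8 : (r A n : ℝ) ^ 2 ≤ (K : ℝ) ^ 2 :=
              pow_le_pow_left₀ (Nat.cast_nonneg _) (by exact_mod_cast hA n) 2
            rw [mul_one_div]
            calc (r A n : ℝ) ^ 2 / n ≤ (K : ℝ) ^ 2 / n :=
                  div_le_div_of_nonneg_right h8 (by linarith)
              _ ≤ (K : ℝ) ^ 2 / M := div_le_div_of_nonneg_left (sq_nonneg _) hM0 h7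
    rw [sum_const, nsmul_eq_mul] at h5 h6
    have e1 : (1 + (K : ℝ) ^ 2) * (F.card / M) =
        F.card * (1 / (M : ℝ)) + F.card * ((K : ℝ) ^ 2 * (1 / M)) := by
      field_simp
    rw [e1]
    linarith
  have h5 := mul_le_mul_of_nonneg_left h3 hC
  have h6 : (1 + (K : ℝ) ^ 2) * 1 < (1 + (K : ℝ) ^ 2) * (F.card / M) := by linarith
  have h7 := lt_of_mul_lt_mul_left h6 (by positivity)
  rw [one_lt_div hM0] at h7
  have h8 : M < F.card := by exact_mod_cast h7
  exact h8.le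

end Pool.Agent.H21.ET
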