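import Pool.Agent.H38.ETU.VA

/-!
# The upper bound of `VV` for sets in `[M, N]`
-/

set_option autoImplicit false

open Finset MeasureTheory

namespace Pool.Agent.H21.ET

open Pool.Agent.W247.ET Pool.Agent.H38.ETU
open Pool.Agent.W369.ET (group Dd_abs abs_le1 abs_le2 geom)

/-- the representation function of a subset of `[M, N]` vanishes below `2 M` -/
lemma rep_low {B : Finset ℕ} {M N n : ℕ} (hB : B ⊆ Icc M N) (hn : n < 2 * M) : rep B n = 0 := by
  unfold rep
  rw [card_eq_zero, filter_eq_empty_iff]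
  rintro ⟨a, b⟩ h h'
  rw [mem_product] at h
  have h1 := (mem_Icc.1 (hB h.1)).1
  have h2 := (mem_Icc.1 (hB h.2)).1
  simp only at h' h1 h2
  omega

lemma sum_exp_le (L : ℕ) {y : ℝ} (hy : 0 < y) :
    ∑ n ∈ Icc 1 L, Real.exp (-((n : ℝ) * y)) ≤ 1 / y := by
  have e : ∀ n : ℕ, Real.exp (-((n : ℝ) * y)) = Real.exp (-y) ^ n := by
    intro n
    rw [← Real.exp_nat_mul]
    congr 1
    ring
  simp only [e]
  have hg := geom (Real.exp (-y)) L
  have hq : 0 < Real.exp (-y) := Real.exp_pos _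
  have hq1 : y * Real.exp (-y) ≤ 1 - Real.exp (-y) := by
    have h3 := Real.add_one_le_exp y
    have h4 : Real.exp (-y) * Real.exp y = 1 := by
      rw [← Real.exp_add, neg_add_cancel, Real.exp_zero]
    nlinarith
  have hq2 : 0 < 1 - Real.exp (-y) := lt_of_lt_of_le (by positivity) hq1
  have hq3 : 0 < Real.exp (-y) ^ (L + 1) := by positivity
  rw [le_div_iff₀ hy]
  have h5 : (1 - Real.exp (-y)) * ((∑ n ∈ Icc 1 L, Real.exp (-y) ^ n) * y) ≤
      (1 - Real.exp (-y)) * 1 := by
    rw [← mul_assoc, hg]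
    nlinarith
  exact le_of_mul_le_mul_left h5 hq2

lemma part1L {B : Finset ℕ} {M N : ℕ} (hM : 1 ≤ M) (hB : B ⊆ Icc M N) (T : ℝ) (hT : 0 < T)
    {y : ℝ} (hy : 0 < y) :
    Dd B y ^ 2 ≤ T * ∑ n ∈ Icc (2 * M) (2 * N), Real.exp (-((n : ℝ) * y)) + ex B N y / T := by
  have hB1 : B ⊆ Icc 1 N := hB.trans (Icc_subset_Icc hM le_rfl)
  have h1 : |Dd B y| ≤ ∑ a ∈ B, Real.exp (-((a : ℝ) * y)) := by
    refine (Dd_abs B y).trans (Finset.sum_le_sum fun a _ => ?_)
    have h2 := abs_le1 (t := 2 * (a : ℝ) * y) (by positivity)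
    have e : 2 * (a : ℝ) * y / 2 = (a : ℝ) * y := by ring
    rwa [e] at h2
  have h3 : Dd B y ^ 2 ≤ (∑ a ∈ B, Real.exp (-((a : ℝ) * y))) ^ 2 := by
    rw [← sq_abs]
    exact pow_le_pow_left₀ (abs_nonneg _) h1 2
  have h4 : (∑ a ∈ B, Real.exp (-((a : ℝ) * y))) ^ 2 =
      ∑ n ∈ Icc 1 (2 * N), (rep B n : ℝ) * Real.exp (-((n : ℝ) * y)) := by
    rw [← group hB1 (fun n => Real.exp (-((n : ℝ) * y))), sq, Finset.sum_mul_sum]
    refine Finset.sum_congr rfl fun a _ => Finset.sum_congr rfl fun b _ => ?_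
    rw [← Real.exp_add]
    congr 1
    push_cast
    ring
  rw [h4] at h3
  refine h3.trans ?_
  have h6 : ∑ n ∈ Icc (2 * M) (2 * N), Real.exp (-((n : ℝ) * y)) =
      ∑ n ∈ Icc 1 (2 * N), if 2 * M ≤ n then Real.exp (-((n : ℝ) * y)) else 0 := by
    rw [← sum_filter]
    apply sum_congr _ fun _ _ => rfl
    ext n
    simp only [mem_filter, mem_Icc]
    omega
  rw [h6]
  unfold ex
  rw [Finset.mul_sum, Finset.sum_div, ← Finset.sum_add_distrib]
  refine Finset.sum_le_sum fun n _ => ?_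
  split_ifs with h
  · have h5 := mul_le_mul_of_nonneg_right (lin_split T hT (rep B n : ℝ))
      (Real.exp_pos (-((n : ℝ) * y))).le
    refine h5.trans (le_of_eq ?_)
    ring
  · rw [rep_low hB (by omega)]
    simp

theorem vaL (T : ℝ) (hT : 0 < T) (B : Finset ℕ) (M N : ℕ) (hM : 1 ≤ M) (hMN : M ≤ N)
    (hB : B ⊆ Icc M N) (h1 : VA1_stmt) :
    VV B ≤ 3 / 5 * ∑ n ∈ Icc 1 (2 * N), ∑ m ∈ Icc 1 (2 * N), (rep B n : ℝ) * rep B m * kap n m +
      10 * T * ∑ n ∈ (Icc M N).filter (fun n => rep B n = 0), 1 / (n : ℝ) + 52 * T +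
      2 * ee (fun n => (rep B n : ℝ)) (2 * N) / T := by
  have hB1 : B ⊆ Icc 1 N := hB.trans (Icc_subset_Icc hM le_rfl)
  set E : ℝ := ee (fun n => (rep B n : ℝ)) (2 * N) with hE
  have hE0 : 0 ≤ E := ee_nonneg _ _
  have hN : 0 < N := by omega
  have hN' : (0 : ℝ) < N := by exact_mod_cast hN
  have hM' : (0 : ℝ) < M := by exact_mod_cast hM
  have hM1 : (1 : ℝ) ≤ M := by exact_mod_cast hM
  obtain ⟨i1, e1, i2, e2⟩ := h1 B N hB1
  set Z := (Icc M N).filter (fun n => rep B n = 0) with hZ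
  set c : ℝ := 1 / (100 * M) with hc
  have hc0 : 0 < c := by positivity
  have hc1 : c ≤ 1 / 100 := by
    rw [hc]
    apply one_div_le_one_div_of_le (by norm_num)
    linarith
  set m4 : ℝ := 1 / 4 * ∑ n ∈ Icc 1 (2 * N), (rep B n : ℝ) with hm4
  have hm40 : 0 ≤ m4 := by
    rw [hm4]
    exact mul_nonneg (by norm_num) (sum_nonneg fun n _ => Nat.cast_nonneg _)
  set f1 : ℝ → ℝ := fun y => 3 / 5 * (y * Hh B N y ^ 2) with hf1
  set f2 : ℝ → ℝ := fun y => 20 * T * ∑ n ∈ Z, Real.exp (-(2 * (n : ℝ) * y)) with hf2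
  set f3 : ℝ → ℝ := (Set.Ioc (0 : ℝ) (2 / N)).indicator (fun _ => m4) with hf3
  set f4 : ℝ → ℝ := (Set.Ioi c).indicator
    (fun y => T * ∑ n ∈ Icc (2 * M) (2 * N), Real.exp (-((n : ℝ) * y))) with hf4
  set f5 : ℝ → ℝ := fun y => ex B N y / T with hf5
  set f6 : ℝ → ℝ := (Set.Ioc (0 : ℝ) c).indicator (fun _ => 20 * T * M) with hf6
  have hexp : ∀ (a c : ℝ), 0 < a → IntegrableOn (fun y => Real.exp (-(a * y))) (Set.Ioi c) ∧
      ∫ y in Set.Ioi c, Real.exp (-(a * y)) = Real.exp (-(a * c)) / a := by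
    intro a c ha
    have e : ∀ y : ℝ, -(a * y) = (-a) * y := fun y => by ring
    simp only [e]
    refine ⟨integrableOn_exp_mul_Ioi (by linarith) c, ?_⟩
    rw [integral_exp_mul_Ioi (by linarith) c]
    rw [div_neg, neg_div, neg_neg]
  have hpos : ∀ n ∈ Icc 1 (2 * N), (0 : ℝ) < n := fun n hn => by
    have := (mem_Icc.1 hn).1
    exact_mod_cast this
  have hposM : ∀ n ∈ Icc (2 * M) (2 * N), (0 : ℝ) < n := fun n hn => by
    have := (mem_Icc.1 hn).1
    exact_mod_cast (by omega : 0 < n)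
  have hposZ : ∀ n ∈ Z, (0 : ℝ) < 2 * (n : ℝ) := fun n hn => by
    have := (mem_Icc.1 (mem_filter.1 hn).1).1
    have h : (0 : ℝ) < n := by exact_mod_cast (by omega : 0 < n)
    linarith
  have I1 : IntegrableOn f1 (Set.Ioi 0) := i2.const_mul _
  have I2 : IntegrableOn f2 (Set.Ioi 0) :=
    (integrable_finsetSum _ fun n hn => (hexp _ 0 (hposZ n hn)).1).const_mul _
  have I3 : IntegrableOn f3 (Set.Ioi 0) := by
    refine ((integrable_indicator_iff measurableSet_Ioc).2 ?_).integrableOn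
    exact integrableOn_const (by simp)
  have I4' : IntegrableOn (fun y => T * ∑ n ∈ Icc (2 * M) (2 * N), Real.exp (-((n : ℝ) * y)))
      (Set.Ioi c) :=
    (integrable_finsetSum _ fun n hn => (hexp _ c (hposM n hn)).1).const_mul _
  have I4 : IntegrableOn f4 (Set.Ioi 0) :=
    ((integrable_indicator_iff measurableSet_Ioi).2 I4').integrableOn
  have I5 : IntegrableOn f5 (Set.Ioi 0) := by
    have : IntegrableOn (fun y => ∑ n ∈ Icc 1 (2 * N),
        (rep B n : ℝ) ^ 2 * Real.exp (-((n : ℝ) * y))) (Set.Ioi 0) :=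
      integrable_finsetSum _ fun n hn => (hexp _ 0 (hpos n hn)).1.const_mul _
    exact this.div_const T
  have I6 : IntegrableOn f6 (Set.Ioi 0) := by
    refine ((integrable_indicator_iff measurableSet_Ioc).2 ?_).integrableOn
    exact integrableOn_const (by simp)
  have hsum0 : ∀ (S : Finset ℕ) (g : ℕ → ℝ), 0 ≤ ∑ n ∈ S, Real.exp (g n) := fun S g =>
    Finset.sum_nonneg fun n _ => (Real.exp_pos _).le
  have hle : ∀ y ∈ Set.Ioi (0 : ℝ), Dd B y ^ 2 ≤ f1 y + f2 y + f3 y + f4 y + f5 y + f6 y := by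
    intro y hy
    have hy0 : 0 < y := hy
    have g1 : 0 ≤ f1 y := by
      simp only [hf1]; positivity
    have g2 : 0 ≤ f2 y := by
      simp only [hf2]
      exact mul_nonneg (by positivity) (hsum0 _ _)
    have g3 : 0 ≤ f3 y := Set.indicator_nonneg (fun _ _ => hm40) y
    have g4 : 0 ≤ f4 y := Set.indicator_nonneg
      (fun _ _ => mul_nonneg hT.le (hsum0 _ _)) y
    have g5 : 0 ≤ f5 y := div_nonneg (ex_nonneg B N y) hT.le
    have g6 : 0 ≤ f6 y := Set.indicator_nonneg (fun _ _ => by positivity) y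
    by_cases c1 : y < 2 / N
    · have h3 : f3 y = m4 := by
        rw [hf3, Set.indicator_of_mem]
        exact ⟨hy0, c1.le⟩
      have h4 := part2 hB1 hy0
      linarith
    · by_cases c2 : c < y
      · have h3 : f4 y = T * ∑ n ∈ Icc (2 * M) (2 * N), Real.exp (-((n : ℝ) * y)) := by
          rw [hf4, Set.indicator_of_mem]
          exact c2
        have h4 := part1L hM hB T hT hy0
        have h5 : f5 y = ex B N y / T := rfl
        linarith
      · have hyc : y ≤ c := not_lt.1 c2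
        have h3 := part3 hB1 T hT hy0 (not_lt.1 c1) (hyc.trans hc1)
        have h6 : f6 y = 20 * T * M := by
          rw [hf6, Set.indicator_of_mem]
          exact ⟨hy0, hyc⟩
        have h7 : ∑ n ∈ (Icc 1 N).filter (fun n => rep B n = 0), Real.exp (-(2 * (n : ℝ) * y)) ≤
            ∑ n ∈ Z, Real.exp (-(2 * (n : ℝ) * y)) + M := by
          have h8 : (Icc 1 N).filter (fun n => rep B n = 0) ⊆ Z ∪ range M := by
            intro n hn
            rw [mem_filter, mem_Icc] at hn
            rw [mem_union, hZ, mem_filter, mem_Icc, mem_range]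
            by_cases h : n < M
            · exact Or.inr h
            · exact Or.inl ⟨⟨by omega, hn.1.2⟩, hn.2⟩
          calc ∑ n ∈ (Icc 1 N).filter (fun n => rep B n = 0), Real.exp (-(2 * (n : ℝ) * y))
              ≤ ∑ n ∈ Z ∪ range M, Real.exp (-(2 * (n : ℝ) * y)) :=
                sum_le_sum_of_subset_of_nonneg h8 fun _ _ _ => (Real.exp_pos _).le
            _ ≤ ∑ n ∈ Z, Real.exp (-(2 * (n : ℝ) * y)) +
                ∑ n ∈ range M, Real.exp (-(2 * (n : ℝ) * y)) := by
                rw [← sum_union_inter]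
                have := hsum0 (Z ∩ range M) (fun n => -(2 * (n : ℝ) * y))
                linarith
            _ ≤ ∑ n ∈ Z, Real.exp (-(2 * (n : ℝ) * y)) + ∑ _n ∈ range M, (1 : ℝ) := by
                apply add_le_add le_rfl
                apply sum_le_sum
                intro n _
                rw [← Real.exp_zero]
                apply Real.exp_le_exp.2
                have : 0 ≤ 2 * (n : ℝ) * y := by positivity
                linarith
            _ = _ := by rw [sum_const, card_range, nsmul_eq_mul, mul_one]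
        have h9 := mul_le_mul_of_nonneg_left h7 (by positivity : 0 ≤ 20 * T)
        have e3 : f1 y + f2 y + f5 y = 3 / 5 * (y * Hh B N y ^ 2) +
          20 * T * ∑ n ∈ Z, Real.exp (-(2 * (n : ℝ) * y)) + ex B N y / T := rfl
        linarith
  have hmono := setIntegral_mono_on i1 (((((I1.add I2).add I3).add I4).add I5).add I6)
    measurableSet_Ioi hle
  rw [e1] at hmono
  refine hmono.trans ?_
  have s1 : ∫ y in Set.Ioi (0 : ℝ), f1 y = 3 / 5 *
      ∑ n ∈ Icc 1 (2 * N), ∑ m ∈ Icc 1 (2 * N), (rep B n : ℝ) * rep B m * kap n m := by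
    simp only [hf1]
    rw [integral_const_mul, e2]
  have s2 : ∫ y in Set.Ioi (0 : ℝ), f2 y = 10 * T * ∑ n ∈ Z, 1 / (n : ℝ) := by
    simp only [hf2]
    rw [integral_const_mul, integral_finsetSum _ fun n hn => (hexp _ 0 (hposZ n hn)).1]
    rw [Finset.sum_congr rfl fun n hn => (hexp _ 0 (hposZ n hn)).2]
    rw [Finset.mul_sum, Finset.mul_sum]
    refine Finset.sum_congr rfl fun n hn => ?_
    have := hposZ n hn
    have hn0 : (n : ℝ) ≠ 0 := by
      intro h0; rw [h0] at this; simp at this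
    simp only [mul_zero, neg_zero, Real.exp_zero]
    field_simp
    ring
  have s3 : ∫ y in Set.Ioi (0 : ℝ), f3 y ≤ T + E / T := by
    rw [hf3, setIntegral_indicator measurableSet_Ioc]
    have e : Set.Ioi (0 : ℝ) ∩ Set.Ioc 0 (2 / (N : ℝ)) = Set.Ioc 0 (2 / (N : ℝ)) := by
      ext y; simp only [Set.mem_inter_iff, Set.mem_Ioi, Set.mem_Ioc]; tauto
    rw [e, setIntegral_const]
    simp only [Real.volume_real_Ioc, sub_zero, smul_eq_mul]
    rw [max_eq_left (by positivity)]
    have h := mean_le (fun n => (rep B n : ℝ)) (2 * N) T hT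
    have e3 : 2 / (N : ℝ) * m4 = (∑ n ∈ Icc 1 (2 * N), (rep B n : ℝ)) / ((2 * N : ℕ) : ℝ) := by
      rw [hm4]
      push_cast
      field_simp
      ring
    rw [e3]
    exact h
  have s4 : ∫ y in Set.Ioi (0 : ℝ), f4 y ≤ 50 * T := by
    rw [hf4, setIntegral_indicator measurableSet_Ioi]
    have e : Set.Ioi (0 : ℝ) ∩ Set.Ioi c = Set.Ioi c := by
      ext y; simp only [Set.mem_inter_iff, Set.mem_Ioi]
      constructor
      · exact fun h => h.2
      · intro h; exact ⟨by linarith, h⟩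
    rw [e, integral_const_mul, integral_finsetSum _ fun n hn => (hexp _ c (hposM n hn)).1]
    rw [Finset.sum_congr rfl fun n hn => (hexp _ c (hposM n hn)).2]
    rw [mul_comm (50 : ℝ)]
    refine mul_le_mul_of_nonneg_left ?_ hT.le
    calc ∑ n ∈ Icc (2 * M) (2 * N), Real.exp (-((n : ℝ) * c)) / n
        ≤ ∑ n ∈ Icc (2 * M) (2 * N), Real.exp (-((n : ℝ) * c)) / (2 * M) := by
          apply sum_le_sum
          intro n hn
          apply div_le_div_of_nonneg_left (Real.exp_pos _).le (by positivity)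
          exact_mod_cast (mem_Icc.1 hn).1
      _ = (∑ n ∈ Icc (2 * M) (2 * N), Real.exp (-((n : ℝ) * c))) / (2 * M) := by rw [sum_div]
      _ ≤ (1 / c) / (2 * M) := by
          apply div_le_div_of_nonneg_right _ (by positivity)
          refine le_trans ?_ (sum_exp_le (2 * N) hc0)
          apply sum_le_sum_of_subset_of_nonneg
          · exact Icc_subset_Icc (by omega) le_rfl
          · intro _ _ _
            exact (Real.exp_pos _).le
      _ = 50 := by
          rw [hc]
          field_simp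
          norm_num
  have s5 : ∫ y in Set.Ioi (0 : ℝ), f5 y = E / T := by
    simp only [hf5, ex]
    rw [integral_div, integral_finsetSum _ fun n hn => (hexp _ 0 (hpos n hn)).1.const_mul _]
    congr 1
    rw [hE]
    unfold ee
    refine Finset.sum_congr rfl fun n hn => ?_
    rw [integral_const_mul, (hexp _ 0 (hpos n hn)).2]
    simp only [mul_zero, neg_zero, Real.exp_zero]
    ring
  have s6 : ∫ y in Set.Ioi (0 : ℝ), f6 y = T / 5 := by
    rw [hf6, setIntegral_indicator measurableSet_Ioc]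
    have e : Set.Ioi (0 : ℝ) ∩ Set.Ioc 0 c = Set.Ioc 0 c := by
      ext y; simp only [Set.mem_inter_iff, Set.mem_Ioi, Set.mem_Ioc]; tauto
    rw [e, setIntegral_const]
    simp only [Real.volume_real_Ioc, sub_zero, smul_eq_mul]
    rw [max_eq_left hc0.le, hc]
    field_simp
    norm_num
  have hadd : ∫ y in Set.Ioi (0 : ℝ), (f1 y + f2 y + f3 y + f4 y + f5 y + f6 y) =
      (∫ y in Set.Ioi (0 : ℝ), f1 y) + (∫ y in Set.Ioi (0 : ℝ), f2 y) +
        (∫ y in Set.Ioi (0 : ℝ), f3 y) + (∫ y in Set.Ioi (0 : ℝ), f4 y) +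
        (∫ y in Set.Ioi (0 : ℝ), f5 y) + ∫ y in Set.Ioi (0 : ℝ), f6 y := by
    have a1 := integral_add I1 I2
    have a2 := integral_add (I1.add I2) I3
    have a3 := integral_add ((I1.add I2).add I3) I4
    have a4 := integral_add (((I1.add I2).add I3).add I4) I5
    have a5 := integral_add ((((I1.add I2).add I3).add I4).add I5) I6
    simp only [Pi.add_apply] at a1 a2 a3 a4 a5
    rw [a5, a4, a3, a2, a1]
  calc _ = ∫ y in Set.Ioi (0 : ℝ), (f1 y + f2 y + f3 y + f4 y + f5 y + f6 y) := rfl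
    _ ≤ _ := by
      rw [hadd, s1, s2, s5, s6]
      have e5 : 2 * E / T = E / T + E / T := by ring
      rw [e5]
      linarith

end Pool.Agent.H21.ET
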