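import Pool.Agent.H38.ETU.Ker

/-!
# Recentering the kernel sum on `[M, L]`
-/

set_option autoImplicit false

open Finset

namespace Pool.Agent.H21.ET

open Pool.Agent.W247.ET Pool.Agent.H38.ETU
open Pool.Agent.W369.ET (kb Fm kb_sub Fm_le kap_symm)

/-- the indicator function of the numbers `≥ M` -/
noncomputable def chi (M n : ℕ) : ℝ := if M ≤ n then 1 else 0

lemma chi_nonneg (M n : ℕ) : 0 ≤ chi M n := by unfold chi; split_ifs <;> norm_num

lemma chi_of_le {M n : ℕ} (h : M ≤ n) : chi M n = 1 := if_pos h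

lemma chi_of_lt {M n : ℕ} (h : n < M) : chi M n = 0 := if_neg (by omega)

lemma sum_chi_inv_sq (M L : ℕ) (hM : 1 ≤ M) (hML : M ≤ L) :
    ∑ n ∈ Icc M L, 1 / (n : ℝ) ^ 2 ≤ 2 / (M : ℝ) - 1 / L := by
  have hM0 : (0 : ℝ) < M := by exact_mod_cast hM
  have hM1 : (1 : ℝ) ≤ M := by exact_mod_cast hM
  induction L, hML using Nat.le_induction with
  | base =>
    rw [Icc_self, sum_singleton, div_sub_div_same, div_le_div_iff₀ (by positivity) hM0]
    nlinarith
  | succ L hL ih =>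
    rw [Finset.sum_Icc_succ_top (by omega)]
    have hL0 : (0 : ℝ) < L := by exact_mod_cast (by omega : 0 < L)
    push_cast
    have h2 : 1 / ((L : ℝ) + 1) ^ 2 ≤ 1 / (L : ℝ) - 1 / ((L : ℝ) + 1) := by
      rw [← sub_nonneg]
      have h3 : 1 / (L : ℝ) - 1 / ((L : ℝ) + 1) - 1 / ((L : ℝ) + 1) ^ 2 =
          1 / ((L : ℝ) * (L + 1) ^ 2) := by
        field_simp
        ring
      rw [h3]
      positivity
    linarith

lemma chi_sq (M L : ℕ) (hM : 1 ≤ M) (hML : M ≤ L) :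
    (M : ℝ) * ∑ n ∈ Icc 1 L, chi M n / (n : ℝ) ^ 2 ≤ 2 := by
  have hM0 : (0 : ℝ) < M := by exact_mod_cast hM
  have h1 : ∑ n ∈ Icc 1 L, chi M n / (n : ℝ) ^ 2 = ∑ n ∈ Icc M L, 1 / (n : ℝ) ^ 2 := by
    have e : ∀ n : ℕ, chi M n / (n : ℝ) ^ 2 = if M ≤ n then 1 / (n : ℝ) ^ 2 else 0 := by
      intro n
      unfold chi
      split_ifs <;> simp
    simp only [e]
    rw [← sum_filter]
    apply sum_congr _ fun _ _ => rfl
    ext n
    simp only [mem_filter, mem_Icc]
    omega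
  rw [h1]
  have h2 := sum_chi_inv_sq M L hM hML
  have h3 : 0 ≤ 1 / (L : ℝ) := by positivity
  calc (M : ℝ) * ∑ n ∈ Icc M L, 1 / (n : ℝ) ^ 2 ≤ M * (2 / M) :=
        mul_le_mul_of_nonneg_left (by linarith) hM0.le
    _ = 2 := by field_simp

lemma lin_chi (T : ℝ) (hT : 0 < T) (u : ℕ → ℝ) (M L : ℕ) (hM : 1 ≤ M) (hML : M ≤ L)
    (hu0 : ∀ n, n < M → u n = 0) :
    (M : ℝ) * ∑ n ∈ Icc 1 L, u n / (n : ℝ) ^ 2 ≤ 2 * T + ee u L / T := by
  have hM0 : (0 : ℝ) < M := by exact_mod_cast hM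
  have h1 := mul_le_mul_of_nonneg_left (chi_sq M L hM hML) hT.le
  have h2 : (M : ℝ) * ∑ n ∈ Icc 1 L, u n / (n : ℝ) ^ 2 ≤
      T * ((M : ℝ) * ∑ n ∈ Icc 1 L, chi M n / (n : ℝ) ^ 2) + ee u L / T := by
    unfold ee
    rw [mul_sum, mul_sum, mul_sum, sum_div, ← sum_add_distrib]
    apply sum_le_sum
    intro n hn
    have hn0 := cpos hn
    by_cases h : M ≤ n
    · rw [chi_of_le h]
      have hMn : (M : ℝ) ≤ n := by exact_mod_cast h
      have h3 : u n ≤ T + u n ^ 2 / T := by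
        have : u n * T ≤ T * T + u n ^ 2 := by nlinarith [sq_nonneg (u n - T / 2)]
        have e : T + u n ^ 2 / T = (T * T + u n ^ 2) / T := by field_simp
        rw [e, le_div_iff₀ hT]
        exact this
      have h4 : (M : ℝ) * (u n / (n : ℝ) ^ 2) ≤ M * ((T + u n ^ 2 / T) / (n : ℝ) ^ 2) :=
        mul_le_mul_of_nonneg_left (div_le_div_of_nonneg_right h3 (by positivity)) hM0.le
      have h5 : (M : ℝ) * (u n ^ 2 / T / (n : ℝ) ^ 2) ≤ n * (u n ^ 2 / T / (n : ℝ) ^ 2) :=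
        mul_le_mul_of_nonneg_right hMn (by positivity)
      have e1 : (M : ℝ) * ((T + u n ^ 2 / T) / (n : ℝ) ^ 2) =
          T * (M * (1 / (n : ℝ) ^ 2)) + M * (u n ^ 2 / T / (n : ℝ) ^ 2) := by ring
      have e2 : (n : ℝ) * (u n ^ 2 / T / (n : ℝ) ^ 2) = u n ^ 2 / n / T := by
        field_simp
      linarith
    · rw [hu0 n (by omega), chi_of_lt (by omega)]
      simp
  linarith

/-- the truncated row sums -/
lemma row_chi {n : ℕ} (M L : ℕ) (hM : 1 ≤ M) (hML : M ≤ L) (hn : M ≤ n) :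
    |∑ m ∈ Icc 1 L, chi M m * kap n m| ≤ 1 / (4 * (L : ℝ)) + 5 * M / (4 * (n : ℝ) ^ 2) := by
  obtain ⟨M', rfl⟩ := Nat.exists_eq_add_of_le' hM
  have h1 : ∑ m ∈ Icc 1 L, chi (M' + 1) m * kap n m = kb n L - kb n M' := by
    have e : ∀ m : ℕ, chi (M' + 1) m * kap n m =
        kap n m - (if m ≤ M' then kap n m else 0) := by
      intro m
      unfold chi
      split_ifs with a b b
      · omega
      · simp
      · simp
      · omega
    simp only [e]
    rw [sum_sub_distrib, ← sum_filter]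
    unfold kb
    congr 1
    apply sum_congr _ fun _ _ => rfl
    ext m
    simp only [mem_filter, mem_Icc]
    omega
  rw [h1]
  have hn1 : 1 ≤ n := by omega
  have hn0 : (0 : ℝ) < n := by exact_mod_cast hn1
  have h2 := kb_sub hn1 L
  have h3 := Fm_le n (by omega : 1 ≤ L)
  have h4 := kb_sub hn1 M'
  have h5 : |Fm n M'| ≤ M' / (4 * (n : ℝ) ^ 2) := by
    have hm : (0 : ℝ) ≤ M' := Nat.cast_nonneg _
    unfold Fm
    rw [abs_div, abs_mul, abs_of_nonneg hm,
      abs_of_pos (a := 4 * ((n : ℝ) + M') ^ 3) (by positivity),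
      div_le_div_iff₀ (by positivity) (by positivity)]
    have h6 : |(M' : ℝ) - n| ≤ n + M' := by
      rw [abs_le]
      constructor <;> linarith
    have h7 : (n : ℝ) ^ 2 ≤ (n + M') ^ 2 := by nlinarith
    calc (M' : ℝ) * |(M' : ℝ) - n| * (4 * n ^ 2) ≤ M' * (n + M') * (4 * (n + M') ^ 2) := by
          apply mul_le_mul (mul_le_mul_of_nonneg_left h6 hm) (by linarith) (by positivity)
            (by positivity)
      _ = M' * (4 * ((n : ℝ) + M') ^ 3) := by ring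
  have p1 : 0 ≤ 1 / ((n : ℝ) + L) ^ 2 := by positivity
  have p2 : 0 ≤ 1 / ((n : ℝ) + M') ^ 2 := by positivity
  have a1 := abs_sub_abs_le_abs_sub (kb n L) (Fm n L)
  have a2 := abs_sub_abs_le_abs_sub (kb n M') (Fm n M')
  have a3 := abs_sub (kb n L) (kb n M')
  have e1 : 5 * ((M' + 1 : ℕ) : ℝ) / (4 * (n : ℝ) ^ 2) =
      1 / (n : ℝ) ^ 2 + M' / (4 * (n : ℝ) ^ 2) + (4 * M' + 1) / (4 * (n : ℝ) ^ 2) := by
    push_cast
    field_simp
    ring
  have p3 : 0 ≤ (4 * (M' : ℝ) + 1) / (4 * (n : ℝ) ^ 2) := by positivity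
  rw [e1]
  linarith

/-- VC for functions which vanish below `M` -/
theorem vcL (lam : ℝ) (hlam : 0 ≤ lam) (T : ℝ) (hT : 0 < T) (u : ℕ → ℝ) (M L : ℕ) (hM : 1 ≤ M)
    (hML : M ≤ L) (hu : ∀ n, 0 ≤ u n) (hu0 : ∀ n, n < M → u n = 0) :
    ∑ n ∈ Icc 1 L, ∑ m ∈ Icc 1 L, u n * u m * kap n m ≤
      ∑ n ∈ Icc 1 L, ∑ m ∈ Icc 1 L, (u n - lam * chi M n) * (u m - lam * chi M m) * kap n m +
      (lam * (6 * T + 3 * (ee u L / T)) + 3 * lam ^ 2) := by
  have hL : 1 ≤ L := by omega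
  have hL0 : (0 : ℝ) < L := by exact_mod_cast hL
  have hM0 : (0 : ℝ) < M := by exact_mod_cast hM
  have hee : 0 ≤ ee u L / T := div_nonneg (ee_nonneg _ _) hT.le
  set S : ℕ → ℝ := fun n => ∑ m ∈ Icc 1 L, chi M m * kap n m with hS
  have hA : ∑ n ∈ Icc 1 L, ∑ m ∈ Icc 1 L, u n * (chi M m * kap n m) =
      ∑ n ∈ Icc 1 L, u n * S n := sum_congr rfl fun n _ => by rw [hS, mul_sum]
  have hA' : ∑ n ∈ Icc 1 L, ∑ m ∈ Icc 1 L, u m * (chi M n * kap n m) =
      ∑ n ∈ Icc 1 L, u n * S n := by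
    rw [sum_comm, ← hA]
    refine sum_congr rfl fun n _ => sum_congr rfl fun m _ => ?_
    rw [kap_symm]
  have hC : ∑ n ∈ Icc 1 L, ∑ m ∈ Icc 1 L, chi M n * (chi M m * kap n m) =
      ∑ n ∈ Icc 1 L, chi M n * S n := sum_congr rfl fun n _ => by rw [hS, mul_sum]
  have h1 : ∑ n ∈ Icc 1 L, ∑ m ∈ Icc 1 L, u n * u m * kap n m =
      ∑ n ∈ Icc 1 L, ∑ m ∈ Icc 1 L, (u n - lam * chi M n) * (u m - lam * chi M m) * kap n m +
      2 * ∑ n ∈ Icc 1 L, (lam * u n - lam ^ 2 / 2 * chi M n) * S n := by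
    have e1 : ∑ n ∈ Icc 1 L, (lam * u n - lam ^ 2 / 2 * chi M n) * S n =
        lam * ∑ n ∈ Icc 1 L, u n * S n - lam ^ 2 / 2 * ∑ n ∈ Icc 1 L, chi M n * S n := by
      rw [mul_sum, mul_sum, ← sum_sub_distrib]
      exact sum_congr rfl fun n _ => by ring
    have e2 : ∑ n ∈ Icc 1 L, ∑ m ∈ Icc 1 L,
        (u n - lam * chi M n) * (u m - lam * chi M m) * kap n m =
        ∑ n ∈ Icc 1 L, ∑ m ∈ Icc 1 L, u n * u m * kap n m -
        lam * ∑ n ∈ Icc 1 L, ∑ m ∈ Icc 1 L, u n * (chi M m * kap n m) -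
        lam * ∑ n ∈ Icc 1 L, ∑ m ∈ Icc 1 L, u m * (chi M n * kap n m) +
        lam ^ 2 * ∑ n ∈ Icc 1 L, ∑ m ∈ Icc 1 L, chi M n * (chi M m * kap n m) := by
      simp only [mul_sum]
      rw [← sum_sub_distrib, ← sum_sub_distrib, ← sum_add_distrib]
      refine sum_congr rfl fun n _ => ?_
      rw [← sum_sub_distrib, ← sum_sub_distrib, ← sum_add_distrib]
      exact sum_congr rfl fun m _ => by ring
    rw [e1, e2, hA, hA', hC]
    ring
  have h4 : ∑ n ∈ Icc 1 L, (lam * u n - lam ^ 2 / 2 * chi M n) * S n ≤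
      lam / 4 * (T + ee u L / T) + 5 * lam / 4 * (2 * T + ee u L / T) + lam ^ 2 / 8 * 1 +
        5 * lam ^ 2 / 8 * 2 := by
    calc ∑ n ∈ Icc 1 L, (lam * u n - lam ^ 2 / 2 * chi M n) * S n
        ≤ ∑ n ∈ Icc 1 L, (lam * u n + lam ^ 2 / 2 * chi M n) *
            (1 / (4 * (L : ℝ)) + 5 * M / (4 * (n : ℝ) ^ 2)) := by
          apply sum_le_sum
          intro n hn
          by_cases h : M ≤ n
          · have h8 : |lam * u n - lam ^ 2 / 2 * chi M n| ≤ lam * u n + lam ^ 2 / 2 * chi M n := by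
              have h9 : 0 ≤ lam * u n := mul_nonneg hlam (hu n)
              have h10 : 0 ≤ lam ^ 2 / 2 * chi M n := mul_nonneg (by positivity) (chi_nonneg _ _)
              rw [abs_le]
              constructor <;> linarith
            calc (lam * u n - lam ^ 2 / 2 * chi M n) * S n
                ≤ |(lam * u n - lam ^ 2 / 2 * chi M n) * S n| := le_abs_self _
              _ = |lam * u n - lam ^ 2 / 2 * chi M n| * |S n| := abs_mul _ _
              _ ≤ _ := mul_le_mul h8 (row_chi M L hM hML h) (abs_nonneg _)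
                  (add_nonneg (mul_nonneg hlam (hu n))
                    (mul_nonneg (by positivity) (chi_nonneg _ _)))
          · rw [hu0 n (by omega), chi_of_lt (by omega)]
            simp
      _ = lam / 4 * ((∑ n ∈ Icc 1 L, u n) / L) +
          5 * lam / 4 * (M * ∑ n ∈ Icc 1 L, u n / (n : ℝ) ^ 2) +
          lam ^ 2 / 8 * ((∑ n ∈ Icc 1 L, chi M n) / L) +
          5 * lam ^ 2 / 8 * (M * ∑ n ∈ Icc 1 L, chi M n / (n : ℝ) ^ 2) := by
          simp only [mul_sum, sum_div, ← sum_add_distrib]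
          apply sum_congr rfl
          intro n hn
          have := cpos hn
          field_simp
          ring
      _ ≤ _ := by
          have b1 := mul_le_mul_of_nonneg_left (mean_le u L T hT) (by positivity : 0 ≤ lam / 4)
          have b2 := mul_le_mul_of_nonneg_left (lin_chi T hT u M L hM hML hu0)
            (by positivity : 0 ≤ 5 * lam / 4)
          have b3 := mul_le_mul_of_nonneg_left (chi_sq M L hM hML)
            (by positivity : 0 ≤ 5 * lam ^ 2 / 8)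
          have b4 : (∑ n ∈ Icc 1 L, chi M n) / L ≤ 1 := by
            rw [div_le_one hL0]
            calc ∑ n ∈ Icc 1 L, chi M n ≤ ∑ _n ∈ Icc 1 L, (1 : ℝ) := by
                  apply sum_le_sum
                  intro n _
                  unfold chi
                  split_ifs <;> norm_num
              _ = L := by simp
          have b5 := mul_le_mul_of_nonneg_left b4 (by positivity : 0 ≤ lam ^ 2 / 8)
          linarith
  rw [h1]
  have p1 : 0 ≤ lam * T := mul_nonneg hlam hT.le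
  have p2 : 0 ≤ lam ^ 2 := sq_nonneg _
  nlinarith

end Pool.Agent.H21.ET
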