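import Pool.Agent.H38.ETU.Cut
import Pool.Agent.H21.ET.VAL
import Pool.Agent.H21.ET.VCL
import Pool.Agent.H38.ETU.Main

/-!
# The part of a set in `[M, N]`
-/

set_option autoImplicit false

open Finset

namespace Pool.Agent.H21.ET

open Pool.Agent.W247.ET Pool.Agent.H38.ETU
open Pool.Agent.W962.ET (rf r_eq rs rep_eq mem_rs rep_even)

open Classical in
/-- the elements of `A` in `[M, N]` -/
noncomputable def cutL (A : Set ℕ) (M N : ℕ) : Finset ℕ := (Icc M N).filter (fun a => a ∈ A)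

open Classical in
/-- the elements of `A` below `M` -/
noncomputable def lowS (A : Set ℕ) (M : ℕ) : Finset ℕ := (range M).filter (fun a => a ∈ A)

/-- the numbers with a representation which uses an element below `M` -/
noncomputable def exc (A : Set ℕ) (M N : ℕ) : Finset ℕ :=
  ((lowS A M ×ˢ lowS A M).image (fun p => p.1 + p.2)).filter (fun n => M ≤ n) ∪
    (lowS A M ×ˢ cutL A M N).image (fun p => p.1 + p.2)

lemma mem_cutL {A : Set ℕ} {M N a : ℕ} : a ∈ cutL A M N ↔ (M ≤ a ∧ a ≤ N) ∧ a ∈ A := by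
  classical
  unfold cutL
  rw [mem_filter, mem_Icc]

lemma mem_lowS {A : Set ℕ} {M a : ℕ} : a ∈ lowS A M ↔ a < M ∧ a ∈ A := by
  classical
  unfold lowS
  rw [mem_filter, mem_range]

lemma cutL_sub (A : Set ℕ) (M N : ℕ) : cutL A M N ⊆ Icc M N := fun _ ha =>
  mem_Icc.2 (mem_cutL.1 ha).1

lemma rs_subL (A : Set ℕ) (M N n : ℕ) : rs (cutL A M N) n ⊆ rf A n := by
  classical
  intro p hp
  obtain ⟨⟨h1, h2⟩, h3⟩ := mem_rs.mp hp
  unfold rf
  rw [mem_filter, HasAntidiagonal.mem_antidiagonal]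
  exact ⟨h3, (mem_cutL.mp h1).2, (mem_cutL.mp h2).2⟩

lemma rep_leL (A : Set ℕ) (M N n : ℕ) : rep (cutL A M N) n ≤ r A n := by
  rw [r_eq, rep_eq]
  exact card_le_card (rs_subL A M N n)

lemma rep_eqL (A : Set ℕ) (M N n : ℕ) (hMn : M ≤ n) (hnN : n ≤ N) (he : n ∉ exc A M N) :
    rep (cutL A M N) n = r A n := by
  classical
  rw [r_eq, rep_eq]
  congr 1
  refine (rs_subL A M N n).antisymm fun p hp => ?_
  unfold rf at hp
  rw [mem_filter, HasAntidiagonal.mem_antidiagonal] at hp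
  obtain ⟨h1, h2, h3⟩ := hp
  have hp1 : M ≤ p.1 := by
    by_contra h
    apply he
    unfold exc
    rw [mem_union, mem_filter, mem_image, mem_image]
    by_cases h4 : M ≤ p.2
    · right
      exact ⟨p, mem_product.2 ⟨mem_lowS.2 ⟨by omega, h2⟩, mem_cutL.2 ⟨⟨h4, by omega⟩, h3⟩⟩, h1⟩
    · left
      exact ⟨⟨p, mem_product.2 ⟨mem_lowS.2 ⟨by omega, h2⟩, mem_lowS.2 ⟨by omega, h3⟩⟩, h1⟩, hMn⟩
  have hp2 : M ≤ p.2 := by
    by_contra h
    apply he
    unfold exc
    rw [mem_union, mem_filter, mem_image, mem_image]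
    right
    refine ⟨(p.2, p.1), mem_product.2 ⟨mem_lowS.2 ⟨by simp only; omega, h3⟩,
      mem_cutL.2 ⟨⟨hp1, by simp only; omega⟩, h2⟩⟩, ?_⟩
    simp only
    omega
  exact mem_rs.mpr ⟨⟨mem_cutL.mpr ⟨⟨hp1, by omega⟩, h2⟩, mem_cutL.mpr ⟨⟨hp2, by omega⟩, h3⟩⟩, h1⟩

/-- the sum of the reciprocals of the exceptional numbers -/
lemma sum_exc (A : Set ℕ) (M N : ℕ) (hM : 1 ≤ M) :
    ∑ n ∈ exc A M N, 1 / (n : ℝ) ≤ ((lowS A M).card : ℝ) ^ 2 / M +
      (lowS A M).card * ∑ b ∈ cutL A M N, 1 / (b : ℝ) := by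
  have hM0 : (0 : ℝ) < M := by exact_mod_cast hM
  set X := ((lowS A M ×ˢ lowS A M).image (fun p => p.1 + p.2)).filter (fun n => M ≤ n) with hX
  set Y := (lowS A M ×ˢ cutL A M N).image (fun p => p.1 + p.2) with hY
  have h0 : ∑ n ∈ exc A M N, 1 / (n : ℝ) ≤ ∑ n ∈ X, 1 / (n : ℝ) + ∑ n ∈ Y, 1 / (n : ℝ) := by
    have : exc A M N = X ∪ Y := rfl
    rw [this, ← sum_union_inter]
    have : 0 ≤ ∑ n ∈ X ∩ Y, 1 / (n : ℝ) := sum_nonneg fun _ _ => by positivity
    linarith
  have h1 : ∑ n ∈ X, 1 / (n : ℝ) ≤ ((lowS A M).card : ℝ) ^ 2 / M := by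
    calc ∑ n ∈ X, 1 / (n : ℝ) ≤ ∑ _n ∈ X, 1 / (M : ℝ) := by
          apply sum_le_sum
          intro n hn
          apply one_div_le_one_div_of_le hM0
          exact_mod_cast (mem_filter.1 hn).2
      _ = (X.card : ℝ) / M := by rw [sum_const, nsmul_eq_mul]; ring
      _ ≤ ((lowS A M).card : ℝ) ^ 2 / M := by
          apply div_le_div_of_nonneg_right _ hM0.le
          have h2 : X.card ≤ (lowS A M).card ^ 2 := by
            calc X.card ≤ ((lowS A M ×ˢ lowS A M).image (fun p => p.1 + p.2)).card :=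
                  card_le_card (filter_subset _ _)
              _ ≤ (lowS A M ×ˢ lowS A M).card := card_image_le
              _ = (lowS A M).card ^ 2 := by rw [card_product, pow_two]
          exact_mod_cast h2
  have h2 : ∑ n ∈ Y, 1 / (n : ℝ) ≤ (lowS A M).card * ∑ b ∈ cutL A M N, 1 / (b : ℝ) := by
    calc ∑ n ∈ Y, 1 / (n : ℝ)
        ≤ ∑ p ∈ lowS A M ×ˢ cutL A M N, 1 / ((p.1 + p.2 : ℕ) : ℝ) :=
          Finset.sum_image_le_of_nonneg (f := fun n : ℕ => 1 / (n : ℝ)) fun _ _ => by positivity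
      _ ≤ ∑ p ∈ lowS A M ×ˢ cutL A M N, 1 / (p.2 : ℝ) := by
          apply sum_le_sum
          intro p hp
          rw [mem_product] at hp
          have h3 := (mem_cutL.1 hp.2).1.1
          have h4 : (0 : ℝ) < p.2 := by exact_mod_cast (by omega : 0 < p.2)
          apply one_div_le_one_div_of_le h4
          push_cast
          have : (0 : ℝ) ≤ p.1 := Nat.cast_nonneg _
          linarith
      _ = _ := by
          simp only [sum_product, sum_const, nsmul_eq_mul]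
  linarith

/-- the sum of the reciprocals of the elements, squared -/
lemma sb_sq (B : Finset ℕ) (M N : ℕ) (hM : 1 ≤ M) (hB : B ⊆ Icc M N) :
    (M : ℝ) * (∑ b ∈ B, 1 / (b : ℝ)) ^ 2 ≤ 2 * ∑ n ∈ Icc 1 (2 * N), (rep B n : ℝ) / n := by
  have hM0 : (0 : ℝ) < M := by exact_mod_cast hM
  have hB1 : B ⊆ Icc 1 N := hB.trans (Icc_subset_Icc hM le_rfl)
  have h1 : ∑ p ∈ B ×ˢ B, 1 / ((p.1 : ℝ) + p.2) = ∑ n ∈ Icc 1 (2 * N), (rep B n : ℝ) / n := by
    have := sum_pairs B N hB1 (fun n => 1 / (n : ℝ))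
    push_cast at this
    rw [this]
    refine sum_congr rfl fun n _ => ?_
    ring
  rw [← h1, pow_two, sum_mul_sum, ← sum_product', mul_sum, mul_sum]
  apply sum_le_sum
  intro p hp
  rw [mem_product] at hp
  have ha := (mem_Icc.1 (hB hp.1)).1
  have hb := (mem_Icc.1 (hB hp.2)).1
  have ha1 : (M : ℝ) ≤ p.1 := by exact_mod_cast ha
  have hb1 : (M : ℝ) ≤ p.2 := by exact_mod_cast hb
  have ha0 : (0 : ℝ) < p.1 := by linarith
  have hb0 : (0 : ℝ) < p.2 := by linarith
  have e1 : (M : ℝ) * (1 / (p.1 : ℝ) * (1 / p.2)) = M / (p.1 * p.2) := by field_simp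
  have e2 : 2 * (1 / ((p.1 : ℝ) + p.2)) = 2 / (p.1 + p.2) := by ring
  rw [e1, e2, div_le_div_iff₀ (by positivity) (by positivity)]
  nlinarith [mul_nonneg (sub_nonneg.2 ha1) hb0.le, mul_nonneg (sub_nonneg.2 hb1) ha0.le]

open Classical in
/-- the numbers with few representations -/
noncomputable def DlowL (l : ℕ) (A : Set ℕ) (M N : ℕ) : ℝ :=
  ∑ n ∈ (Icc M N).filter (fun n => r A n ≤ 2 * l - 2), 1 / (n : ℝ)

open Classical in
/-- the numbers with many representations -/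
noncomputable def DhighL (g : ℕ) (A : Set ℕ) (M N : ℕ) : ℝ :=
  ∑ n ∈ (Icc M N).filter (fun n => 2 * g + 2 ≤ r A n), (r A n : ℝ) ^ 2 / (n : ℝ)

lemma DlowL_nonneg (l : ℕ) (A : Set ℕ) (M N : ℕ) : 0 ≤ DlowL l A M N :=
  sum_nonneg fun n _ => by positivity

lemma DhighL_nonneg (g : ℕ) (A : Set ℕ) (M N : ℕ) : 0 ≤ DhighL g A M N :=
  sum_nonneg fun n _ => by positivity

lemma DlowL_mono (l : ℕ) (A : Set ℕ) {M M' N N' : ℕ} (h1 : M' ≤ M) (h2 : N ≤ N') :
    DlowL l A M N ≤ DlowL l A M' N' := by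
  classical
  apply sum_le_sum_of_subset_of_nonneg
  · exact filter_subset_filter _ (Icc_subset_Icc h1 h2)
  · intro n _ _
    positivity

lemma DhighL_mono (g : ℕ) (A : Set ℕ) {M M' N N' : ℕ} (h1 : M' ≤ M) (h2 : N ≤ N') :
    DhighL g A M N ≤ DhighL g A M' N' := by
  classical
  apply sum_le_sum_of_subset_of_nonneg
  · exact filter_subset_filter _ (Icc_subset_Icc h1 h2)
  · intro n _ _
    positivity

/-- the energy of the truncated set -/
theorem cut_energyL (g : ℕ) (A : Set ℕ) (M N : ℕ) (hM : 1 ≤ M) :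
    ee (fun n => (rep (cutL A M N) n : ℝ)) (2 * N) ≤
      (2 * (g : ℝ) + 1) ^ 2 * ∑ n ∈ Icc 1 (2 * N), chi M n / (n : ℝ) + DhighL g A M (2 * N) := by
  classical
  have e : DhighL g A M (2 * N) = ∑ n ∈ Icc 1 (2 * N),
      if M ≤ n ∧ 2 * g + 2 ≤ r A n then (r A n : ℝ) ^ 2 / (n : ℝ) else 0 := by
    unfold DhighL
    rw [← sum_filter]
    apply sum_congr _ fun _ _ => rfl
    ext n
    simp only [mem_filter, mem_Icc]
    constructor
    · rintro ⟨⟨h1, h2⟩, h3⟩
      exact ⟨⟨by omega, h2⟩, h1, h3⟩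
    · rintro ⟨⟨h1, h2⟩, h3, h4⟩
      exact ⟨⟨h3, h2⟩, h4⟩
  rw [e]
  unfold ee
  rw [mul_sum, ← sum_add_distrib]
  apply sum_le_sum
  intro n hn
  have hn0 := cpos hn
  have h1 := rep_leL A M N n
  have h2 : (rep (cutL A M N) n : ℝ) ≤ r A n := by exact_mod_cast h1
  by_cases hMn : M ≤ n
  · rw [chi_of_le hMn]
    split_ifs with h
    · have h3 : (rep (cutL A M N) n : ℝ) ^ 2 / n ≤ (r A n : ℝ) ^ 2 / n :=
        div_le_div_of_nonneg_right (pow_le_pow_left₀ (Nat.cast_nonneg _) h2 2) hn0.le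
      have h4 : 0 ≤ (2 * (g : ℝ) + 1) ^ 2 * (1 / n) := by positivity
      linarith
    · have h3 : (r A n : ℝ) ≤ 2 * g + 1 := by
        have : r A n ≤ 2 * g + 1 := by
          by_contra h5
          exact h ⟨hMn, by omega⟩
        exact_mod_cast this
      rw [add_zero, mul_one_div]
      apply div_le_div_of_nonneg_right _ hn0.le
      exact pow_le_pow_left₀ (Nat.cast_nonneg _) (h2.trans h3) 2
  · have h3 : rep (cutL A M N) n = 0 := rep_low (cutL_sub A M N) (by omega)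
    have hc : 0 ≤ chi M n := chi_nonneg _ _
    have h4 : 0 ≤ (2 * (g : ℝ) + 1) ^ 2 * (chi M n / n) := by positivity
    have h5 : (rep (cutL A M N) n : ℝ) ^ 2 / n = 0 := by rw [h3]; simp
    have h6 : 0 ≤ (r A n : ℝ) ^ 2 / n := by positivity
    rw [h5]
    split_ifs
    · linarith
    · linarith

/-- the zeros of the truncated set -/
theorem cut_zerosL (l : ℕ) (A : Set ℕ) (M N : ℕ) :
    ∑ n ∈ (Icc M N).filter (fun n => rep (cutL A M N) n = 0), 1 / (n : ℝ) ≤
      DlowL l A M N + ∑ n ∈ exc A M N, 1 / (n : ℝ) := by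
  classical
  set E : Finset ℕ := (Icc M N).filter (fun n => r A n ≤ 2 * l - 2) with hE
  have h1 : ∑ n ∈ (Icc M N).filter (fun n => rep (cutL A M N) n = 0), 1 / (n : ℝ) ≤
      ∑ n ∈ E ∪ exc A M N, 1 / (n : ℝ) := by
    refine sum_le_sum_of_subset_of_nonneg (fun n hn => ?_) fun _ _ _ => by positivity
    obtain ⟨h2, h3⟩ := mem_filter.mp hn
    obtain ⟨hn1, hnN⟩ := mem_Icc.mp h2
    by_cases he : n ∈ exc A M N
    · exact mem_union_right _ he
    · refine mem_union_left _ (mem_filter.mpr ⟨h2, ?_⟩)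
      rw [← rep_eqL A M N n hn1 hnN he, h3]
      omega
  have h2 : ∑ n ∈ E ∪ exc A M N, 1 / (n : ℝ) ≤
      ∑ n ∈ E, 1 / (n : ℝ) + ∑ n ∈ exc A M N, 1 / (n : ℝ) := by
    rw [← sum_union_inter]
    have : 0 ≤ ∑ n ∈ E ∩ exc A M N, 1 / (n : ℝ) := sum_nonneg fun _ _ => by positivity
    linarith
  exact h1.trans h2

/-- the quadratic polynomial -/
theorem cut_quadL (l g : ℕ) (hl : 1 ≤ l) (hlg : l ≤ g) (A : Set ℕ) (M N : ℕ) (hM : 1 ≤ M) :
    ∑ n ∈ Icc 1 (2 * N), chi M n * (((rep (cutL A M N) n : ℝ) - 2 * l) *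
        ((rep (cutL A M N) n : ℝ) - 2 * g)) / n ≤
      DhighL g A M (2 * N) + (4 * l * g + 2 * g + 1) *
        (∑ n ∈ exc A M N, 1 / (n : ℝ) + ∑ a ∈ cutL A M N, 1 / (a : ℝ) + DlowL l A M N + 1) := by
  classical
  set B := cutL A M N with hB
  set c3 : ℝ := 4 * l * g + 2 * g + 1 with hc3
  have hc30 : 0 ≤ c3 := by positivity
  have hl1 : (1 : ℝ) ≤ l := by exact_mod_cast hl
  have hlg' : (l : ℝ) ≤ g := by exact_mod_cast hlg
  set I2 : Finset ℕ := B.image (fun a => 2 * a) with hI2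
  set E : Finset ℕ := (Icc M N).filter (fun n => r A n ≤ 2 * l - 2) with hE
  set Q : Finset ℕ := exc A M N with hQ
  set g1 : ℕ → ℝ := fun n => if n ∈ Q then 1 / (n : ℝ) else 0 with hg1
  set g2 : ℕ → ℝ := fun n => if n ∈ I2 then 1 / (n : ℝ) else 0 with hg2
  set g3 : ℕ → ℝ := fun n => if n ∈ E then 1 / (n : ℝ) else 0 with hg3
  set g4 : ℕ → ℝ := fun n => if n ∈ Ioc N (2 * N) then 1 / (n : ℝ) else 0 with hg4
  set g5 : ℕ → ℝ := fun n => if M ≤ n ∧ 2 * g + 2 ≤ r A n then (r A n : ℝ) ^ 2 / n else 0 with hg5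
  have n1 : ∀ n, 0 ≤ g1 n := fun n => by simp only [hg1]; split_ifs <;> positivity
  have n2 : ∀ n, 0 ≤ g2 n := fun n => by simp only [hg2]; split_ifs <;> positivity
  have n3 : ∀ n, 0 ≤ g3 n := fun n => by simp only [hg3]; split_ifs <;> positivity
  have n4 : ∀ n, 0 ≤ g4 n := fun n => by simp only [hg4]; split_ifs <;> positivity
  have n5 : ∀ n, 0 ≤ g5 n := fun n => by simp only [hg5]; split_ifs <;> positivity
  have key : ∀ n ∈ Icc 1 (2 * N), chi M n * (((rep B n : ℝ) - 2 * l) * ((rep B n : ℝ) - 2 * g)) / n ≤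
      g5 n + c3 * (g1 n + g2 n + g3 n + g4 n) := by
    intro n hn
    obtain ⟨hn1, hn2⟩ := mem_Icc.mp hn
    have hn0 : (0 : ℝ) < n := by exact_mod_cast hn1
    have m1 := n1 n
    have m2 := n2 n
    have m3 := n3 n
    have m4 := n4 n
    have m5 := n5 n
    by_cases hMn : M ≤ n
    swap
    · rw [chi_of_lt (by omega), zero_mul, zero_div]
      positivity
    rw [chi_of_le hMn, one_mul]
    have hR0 : (0 : ℝ) ≤ rep B n := Nat.cast_nonneg _
    have hRr : (rep B n : ℝ) ≤ r A n := by exact_mod_cast rep_leL A M N n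
    by_cases c5 : 2 * g + 2 ≤ r A n
    · have h5 : g5 n = (r A n : ℝ) ^ 2 / n := if_pos ⟨hMn, c5⟩
      have h6 : 2 * (g : ℝ) + 2 ≤ r A n := by exact_mod_cast c5
      have h7 : ((rep B n : ℝ) - 2 * l) * ((rep B n : ℝ) - 2 * g) ≤ (r A n : ℝ) ^ 2 := by
        rcases le_total (rep B n : ℝ) (2 * l) with h8 | h8
        · have h9 : (2 * (l : ℝ) - rep B n) * (2 * g - rep B n) ≤ 2 * l * (2 * g) :=
            mul_le_mul (by linarith) (by linarith) (by linarith) (by positivity)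
          nlinarith
        · rcases le_total (rep B n : ℝ) (2 * g) with h9 | h9
          · have : ((rep B n : ℝ) - 2 * l) * ((rep B n : ℝ) - 2 * g) ≤ 0 :=
              mul_nonpos_of_nonneg_of_nonpos (by linarith) (by linarith)
            nlinarith [sq_nonneg (r A n : ℝ)]
          · have : ((rep B n : ℝ) - 2 * l) * ((rep B n : ℝ) - 2 * g) ≤
                (r A n : ℝ) * (r A n : ℝ) :=
              mul_le_mul (by linarith) (by linarith) (by linarith) (by positivity)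
            nlinarith
      have h8 : (((rep B n : ℝ) - 2 * l) * ((rep B n : ℝ) - 2 * g)) / n ≤ (r A n : ℝ) ^ 2 / n :=
        div_le_div_of_nonneg_right h7 hn0.le
      have h9 : 0 ≤ c3 * (g1 n + g2 n + g3 n + g4 n) := by positivity
      linarith
    have hRg : (rep B n : ℝ) ≤ 2 * g + 1 := by
      have : r A n ≤ 2 * g + 1 := by omega
      have h : (r A n : ℝ) ≤ 2 * g + 1 := by exact_mod_cast this
      linarith
    have hbd : (((rep B n : ℝ) - 2 * l) * ((rep B n : ℝ) - 2 * g)) / n ≤ c3 * (1 / n) := by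
      rw [mul_one_div]
      refine div_le_div_of_nonneg_right ?_ hn0.le
      rw [hc3]
      nlinarith [mul_nonneg hR0 (by positivity : (0 : ℝ) ≤ l)]
    suffices h : (((rep B n : ℝ) - 2 * l) * ((rep B n : ℝ) - 2 * g)) / n ≤
        c3 * (g1 n + g2 n + g3 n + g4 n) by linarith
    by_cases c1 : n ∈ Q
    · have : g1 n = 1 / (n : ℝ) := if_pos c1
      refine hbd.trans ?_
      gcongr
      linarith
    by_cases c2 : n ∈ I2
    · have : g2 n = 1 / (n : ℝ) := if_pos c2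
      refine hbd.trans ?_
      gcongr
      linarith
    by_cases c3' : n ∈ E
    · have : g3 n = 1 / (n : ℝ) := if_pos c3'
      refine hbd.trans ?_
      gcongr
      linarith
    by_cases c4 : n ∈ Ioc N (2 * N)
    · have : g4 n = 1 / (n : ℝ) := if_pos c4
      refine hbd.trans ?_
      gcongr
      linarith
    · have hnN : n ≤ N := by
        by_contra h
        exact c4 (mem_Ioc.mpr ⟨by omega, hn2⟩)
      have hr := rep_eqL A M N n hMn hnN c1
      have hev : Even (rep B n) := rep_even B n fun a ha he =>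
        c2 (mem_image.mpr ⟨a, ha, he.symm⟩)
      have hne : ¬ (r A n ≤ 2 * l - 2) := fun h =>
        c3' (mem_filter.mpr ⟨mem_Icc.mpr ⟨hMn, hnN⟩, h⟩)
      rw [← hr, ← hB] at hne c5
      obtain ⟨t, ht⟩ := hev
      have h1 : 2 * l ≤ rep B n ∧ rep B n ≤ 2 * g := by
        omega
      have h2 : 2 * (l : ℝ) ≤ rep B n := by exact_mod_cast h1.1
      have h3 : (rep B n : ℝ) ≤ 2 * g := by exact_mod_cast h1.2
      have h4 : (((rep B n : ℝ) - 2 * l) * ((rep B n : ℝ) - 2 * g)) / n ≤ 0 := by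
        refine div_nonpos_of_nonpos_of_nonneg ?_ hn0.le
        exact mul_nonpos_of_nonneg_of_nonpos (by linarith) (by linarith)
      refine h4.trans ?_
      positivity
  refine (sum_le_sum key).trans ?_
  rw [sum_add_distrib, ← mul_sum, sum_add_distrib, sum_add_distrib, sum_add_distrib]
  have s1 : ∑ n ∈ Icc 1 (2 * N), g1 n ≤ ∑ n ∈ Q, 1 / (n : ℝ) := by
    simp only [hg1]
    rw [← sum_filter]
    refine sum_le_sum_of_subset_of_nonneg (fun n hn => (mem_filter.mp hn).2) fun _ _ _ => ?_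
    positivity
  have s2 : ∑ n ∈ Icc 1 (2 * N), g2 n ≤ ∑ a ∈ B, 1 / (a : ℝ) := by
    simp only [hg2]
    rw [← sum_filter]
    calc ∑ n ∈ (Icc 1 (2 * N)).filter (fun n => n ∈ I2), 1 / (n : ℝ)
        ≤ ∑ n ∈ I2, 1 / (n : ℝ) :=
          sum_le_sum_of_subset_of_nonneg (fun n hn => (mem_filter.mp hn).2)
            fun _ _ _ => by positivity
      _ = ∑ a ∈ B, 1 / ((2 * a : ℕ) : ℝ) := by
          rw [hI2]
          exact sum_image fun a _ b _ h => by simpa using h
      _ ≤ ∑ a ∈ B, 1 / (a : ℝ) := by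
          refine sum_le_sum fun a ha => ?_
          have h1 := (mem_cutL.mp ha).1.1
          have h2 : (0 : ℝ) < a := by exact_mod_cast (by omega : 0 < a)
          apply one_div_le_one_div_of_le h2
          push_cast
          linarith
  have s3 : ∑ n ∈ Icc 1 (2 * N), g3 n ≤ DlowL l A M N := by
    simp only [hg3]
    rw [← sum_filter]
    refine sum_le_sum_of_subset_of_nonneg (fun n hn => (mem_filter.mp hn).2) fun _ _ _ => ?_
    positivity
  have s4 : ∑ n ∈ Icc 1 (2 * N), g4 n ≤ 1 := by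
    simp only [hg4]
    rw [← sum_filter]
    rcases Nat.eq_zero_or_pos N with hN | hN
    · subst hN
      simp
    have hN0 : (0 : ℝ) < N := by exact_mod_cast hN
    calc ∑ n ∈ (Icc 1 (2 * N)).filter (fun n => n ∈ Ioc N (2 * N)), 1 / (n : ℝ)
        ≤ ∑ n ∈ Ioc N (2 * N), 1 / (n : ℝ) :=
          sum_le_sum_of_subset_of_nonneg (fun n hn => (mem_filter.mp hn).2)
            fun _ _ _ => by positivity
      _ ≤ ∑ _n ∈ Ioc N (2 * N), 1 / (N : ℝ) := by
          refine sum_le_sum fun n hn => ?_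
          have h1 : (N : ℝ) ≤ n := by exact_mod_cast (mem_Ioc.mp hn).1.le
          exact one_div_le_one_div_of_le hN0 h1
      _ = 1 := by
          rw [sum_const, Nat.card_Ioc, nsmul_eq_mul]
          have : 2 * N - N = N := by omega
          rw [this, mul_one_div_cancel hN0.ne']
  have s5 : ∑ n ∈ Icc 1 (2 * N), g5 n = DhighL g A M (2 * N) := by
    simp only [hg5, DhighL]
    rw [← sum_filter]
    apply sum_congr _ fun _ _ => rfl
    ext n
    simp only [mem_filter, mem_Icc]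
    constructor
    · rintro ⟨⟨h1, h2⟩, h3, h4⟩
      exact ⟨⟨h3, h2⟩, h4⟩
    · rintro ⟨⟨h1, h2⟩, h3⟩
      exact ⟨⟨by omega, h2⟩, h1, h3⟩
  rw [s5]
  apply add_le_add le_rfl
  apply mul_le_mul_of_nonneg_left _ hc30
  linarith

end Pool.Agent.H21.ET
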