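import Pool.Agent.H21.ET.VAL
import Pool.Agent.H21.ET.VCL
import Pool.Agent.H38.ETU.Main

/-!
# The inequality for one finite subset of `[M, N]`
-/

set_option autoImplicit false

open Finset MeasureTheory

namespace Pool.Agent.H21.ET

open Pool.Agent.W247.ET Pool.Agent.H38.ETU

lemma ee_sub_chi (W : ℕ → ℝ) (lam : ℝ) (M L : ℕ) (hW : ∀ n, n < M → W n = 0) :
    ee (fun n => W n - lam * chi M n) L =
    ee W L - 2 * lam * ∑ n ∈ Icc 1 L, W n / n + lam ^ 2 * ∑ n ∈ Icc 1 L, chi M n / (n : ℝ) := by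
  unfold ee
  rw [mul_sum, mul_sum, ← sum_sub_distrib, ← sum_add_distrib]
  refine sum_congr rfl fun n hn => ?_
  have := cpos hn
  by_cases h : M ≤ n
  · simp only [chi_of_le h]
    field_simp
    ring
  · simp only [chi_of_lt (show n < M by omega), hW n (by omega)]
    simp

lemma qq_sub_chi (W : ℕ → ℝ) (lam : ℝ) (M L : ℕ) : qq (fun n => W n - lam * chi M n) L ≤
    2 * qq W L + 4 * lam ^ 2 := by
  have h1 : qq (fun n => W n - lam * chi M n) L ≤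
      ∑ n ∈ Icc 1 L, (2 * (W n ^ 2 / (n : ℝ) ^ 2) + 2 * lam ^ 2 * (1 / (n : ℝ) ^ 2)) := by
    unfold qq
    apply sum_le_sum
    intro n hn
    have hn0 := cpos hn
    have e : 2 * (W n ^ 2 / (n : ℝ) ^ 2) + 2 * lam ^ 2 * (1 / (n : ℝ) ^ 2) =
        (2 * W n ^ 2 + 2 * lam ^ 2) / (n : ℝ) ^ 2 := by ring
    rw [e]
    apply div_le_div_of_nonneg_right _ (by positivity)
    have h2 : chi M n ^ 2 ≤ 1 := by unfold chi; split_ifs <;> norm_num
    have h3 : lam ^ 2 * chi M n ^ 2 ≤ lam ^ 2 := by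
      calc lam ^ 2 * chi M n ^ 2 ≤ lam ^ 2 * 1 := mul_le_mul_of_nonneg_left h2 (sq_nonneg _)
        _ = lam ^ 2 := mul_one _
    nlinarith [sq_nonneg (W n + lam * chi M n)]
  rw [sum_add_distrib, ← mul_sum, ← mul_sum] at h1
  have h2 := mul_le_mul_of_nonneg_left (sum_inv_sq L) (by positivity : 0 ≤ 2 * lam ^ 2)
  have h3 : ∑ n ∈ Icc 1 L, W n ^ 2 / (n : ℝ) ^ 2 = qq W L := rfl
  rw [h3] at h1
  linarith

/-- the inequality for one finite subset of `[M, N]`, all errors small with respect to the energy -/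
theorem finite_formL (lam : ℝ) (hlam : 0 < lam) (κ : ℝ) (hκ : 0 < κ) :
    ∃ T : ℝ, 0 < T ∧ ∃ C : ℝ, ∃ M₀ : ℕ, ∀ (B : Finset ℕ) (M N : ℕ), M₀ ≤ M → 1 ≤ M → M ≤ N →
      B ⊆ Icc M N →
      (1369 + 2520 * lam) * ∑ n ∈ Icc 1 (2 * N), (rep B n : ℝ) / n ≤
        1260 * ee (fun n => (rep B n : ℝ)) (2 * N) +
        1260 * lam ^ 2 * ∑ n ∈ Icc 1 (2 * N), chi M n / (n : ℝ) +
        κ * ee (fun n => (rep B n : ℝ)) (2 * N) +
        T * ∑ n ∈ (Icc M N).filter (fun n => rep B n = 0), 1 / (n : ℝ) + C := by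
  obtain ⟨C0, hC0, hE⟩ := ene_all
  set k4 : ℝ := κ / 4 with hk4
  have hk40 : 0 < k4 := by positivity
  obtain ⟨J, hJ⟩ := exists_nat_ge ((256 * C0 / k4) ^ 2 + 1)
  have hJ1' : (1 : ℝ) ≤ J := by nlinarith [sq_nonneg (256 * C0 / k4)]
  have hJ1 : 1 ≤ J := by exact_mod_cast hJ1'
  have hJ0 : (0 : ℝ) < J := by linarith
  have hsJ : 256 * C0 / k4 ≤ √(J : ℝ) := by
    apply Real.le_sqrt_of_sq_le
    linarith
  have hsJ0 : 0 < √(J : ℝ) := Real.sqrt_pos.2 hJ0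
  have hsmall : 128 * (2 / √(J : ℝ) * C0) ≤ k4 := by
    rw [div_le_iff₀ hk40] at hsJ
    have : 128 * (2 / √(J : ℝ) * C0) = 256 * C0 / √(J : ℝ) := by ring
    rw [this, div_le_iff₀ hsJ0]
    linarith
  set T : ℝ := 5920 / k4 with hT
  have hT0 : 0 < T := by positivity
  set T1 : ℝ := 5328 * lam / k4 with hT1
  have hT10 : 0 < T1 := by positivity
  -- the coefficient of `q`
  set cq : ℝ := 1776 * (3 * (J : ℝ) ^ 2 + 3 * lam * (J : ℝ) ^ 3 / T1 +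
    6 * (J : ℝ) ^ 3) + 2520 * lam * (J : ℝ) ^ 2 + 128 * (315 / 16 * (J : ℝ) ^ 3 + 750 * J) with hcq
  have hcq0 : 0 < cq := by positivity
  obtain ⟨m, hm⟩ := exists_nat_ge (cq / k4 + 1)
  have hm1' : (1 : ℝ) ≤ m := by
    have : 0 < cq / k4 := by positivity
    linarith
  have hm1 : 1 ≤ m := by exact_mod_cast hm1'
  have hm0 : (0 : ℝ) < m := by linarith
  have hcm : cq / m ≤ k4 := by
    have h1 : cq / k4 ≤ m := by linarith
    rw [div_le_iff₀ hk40] at h1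
    rw [div_le_iff₀ hm0]
    linarith
  refine ⟨29600 * T, by positivity, 1776 * (6 * lam ^ 2 + lam * (6 * T1) +
    3 * lam ^ 2) + 2520 * lam * (J : ℝ) ^ 2 * 2 + 2960 * (52 * T) + cq * m, J, ?_⟩
  intro B M N hMJ hM hMN hB'
  have hN : 1 ≤ N := hM.trans hMN
  have hB : B ⊆ Icc 1 N := hB'.trans (Icc_subset_Icc hM le_rfl)
  set R : ℕ → ℝ := fun n => (rep B n : ℝ) with hR
  have hR0 : ∀ n, 0 ≤ R n := fun n => Nat.cast_nonneg _
  have h0B : 0 ∉ B := fun h => by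
    have := (mem_Icc.1 (hB h)).1
    omega
  have hRL : ∀ n, 2 * N < n → R n = 0 := by
    intro n hn
    show (rep B n : ℝ) = 0
    rw [Pool.Agent.W654.ET.RS.rep_zero B N n hB hn]
    simp
  have hRlow : ∀ n, n < 2 * M → R n = 0 := by
    intro n hn
    show (rep B n : ℝ) = 0
    rw [rep_low hB' hn]
    simp
  set L := 2 * N with hL
  have hL1 : 1 ≤ L := by omega
  have hML : M ≤ L := by omega
  set W : ℕ → ℝ := Mw R J with hW
  have hW0 : ∀ n, 0 ≤ W n := fun n => Mw_nonneg hR0 J n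
  have hWlow : ∀ n, n < M → W n = 0 := by
    intro n hn
    show Mw R J n = 0
    unfold Mw
    rw [sum_eq_zero (fun i hi => hRlow (n + i) (by have := mem_range.1 hi; omega)), zero_div]
  set s1 : ℝ := ee R L with hs1
  set s2 : ℝ := ee W L with hs2
  set s3 : ℝ := ∑ n ∈ Icc 1 L, R n / n with hs3
  set s4 : ℝ := ∑ n ∈ Icc 1 L, W n / n with hs4
  set s0 : ℝ := ∑ n ∈ Icc 1 L, chi M n / (n : ℝ) with hs0
  set q : ℝ := qq R L with hq
  set qW : ℝ := qq W L with hqW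
  set Z : ℝ := ∑ n ∈ (Icc M N).filter (fun n => rep B n = 0), 1 / (n : ℝ) with hZ
  have hs1nn : 0 ≤ s1 := ee_nonneg _ _
  have hqnn : 0 ≤ q := qq_nonneg _ _
  -- (1)
  obtain ⟨-, h1⟩ := asm_all B N J hB hJ1
  have h2 := low_all B N hB
  have h2' : ∑ p ∈ B ×ˢ B, 1 / ((p.1 : ℝ) + p.2) = s3 := by
    have := sum_pairs B N hB (fun n => 1 / (n : ℝ))
    push_cast at this
    rw [this, hs3]
    refine sum_congr rfl fun n _ => ?_
    simp only [hR]
    ring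
  rw [h2'] at h2
  have h3 := upx ker_all rs_all J hJ1 B N hB
  rw [← hR, ← hL, ← hW, ← hs1, ← hs2, ← hq] at h3
  -- (2)
  have h4 : QS P2 B 0 0 ≤ C0 * s1 := hE B N hB
  have h4' : 128 * (2 / √(J : ℝ) * QS P2 B 0 0) ≤ k4 * s1 := by
    calc 128 * (2 / √(J : ℝ) * QS P2 B 0 0) ≤ 128 * (2 / √(J : ℝ) * (C0 * s1)) :=
          mul_le_mul_of_nonneg_left (mul_le_mul_of_nonneg_left h4 (by positivity)) (by norm_num)
      _ = 128 * (2 / √(J : ℝ) * C0) * s1 := by ring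
      _ ≤ k4 * s1 := mul_le_mul_of_nonneg_right hsmall hs1nn
  -- (3)
  have h5 := vaL T hT0 B M N hM hMN hB' va1_all
  rw [← hR, ← hL, ← hs1, ← hZ] at h5
  have h5' : 2960 * (2 * s1 / T) = k4 * s1 := by
    rw [hT]
    field_simp
    ring
  -- (4)
  have h6 := vb J hJ1 R L hL1 hRL
  rw [← hW, ← hq] at h6
  have h6' : ∑ n ∈ Icc 1 L, ∑ m ∈ Icc 1 L, (rep B n : ℝ) * rep B m * kap n m =
      ∑ n ∈ Icc 1 L, ∑ m ∈ Icc 1 L, R n * R m * kap n m := rfl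
  rw [h6'] at h5
  -- (5)
  have h7 := vcL lam hlam.le T1 hT10 W M L hM hML hW0 hWlow
  rw [← hs2] at h7
  -- (6)
  have h8 := vd (fun n => W n - lam * chi M n) L
  have h8' : ee (fun n => W n - lam * chi M n) L = s2 - 2 * lam * s4 + lam ^ 2 * s0 :=
    ee_sub_chi W lam M L hWlow
  have h8'' : qq (fun n => W n - lam * chi M n) L ≤ 2 * qW + 4 * lam ^ 2 := qq_sub_chi W lam M L
  rw [h8'] at h8
  -- (7)
  have h9 : qW ≤ (J : ℝ) ^ 2 * q := qq_Mw R L hRL J hJ1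
  have h10 : s2 ≤ s1 + (J : ℝ) ^ 3 * q := ee_Mw R L hRL J hJ1
  -- (8)
  have h11 := abs_le.1 (ms J hJ1 R L hR0 hRL)
  have h11' : s3 ≤ s4 + (J : ℝ) ^ 2 * (2 + q) := by
    have := h11.1
    linarith
  -- (12)
  have h12 : q ≤ m + s1 / m := qq_rep B h0B L m hm1
  have h12' : cq * q ≤ cq * m + k4 * s1 := by
    calc cq * q ≤ cq * (m + s1 / m) := mul_le_mul_of_nonneg_left h12 hcq0.le
      _ = cq * m + cq / m * s1 := by ring
      _ ≤ cq * m + k4 * s1 := by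
          have := mul_le_mul_of_nonneg_right hcm hs1nn
          linarith
  -- (14)
  have h14 : 0 ≤ s2 - 2 * lam * s4 + lam ^ 2 * s0 := by
    rw [← h8']
    exact ee_nonneg _ _
  -- products
  have p1 : 2520 * lam * s3 ≤ 2520 * lam * s4 + 2520 * lam * (J : ℝ) ^ 2 * (2 + q) := by
    have := mul_le_mul_of_nonneg_left h11' (by positivity : 0 ≤ 2520 * lam)
    linarith
  have p3 : 3 * lam * (s2 / T1) ≤ 3 * lam * (s1 / T1) + 3 * lam * (J : ℝ) ^ 3 / T1 * q := by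
    have h15 : s2 / T1 ≤ (s1 + (J : ℝ) ^ 3 * q) / T1 := div_le_div_of_nonneg_right h10 hT10.le
    calc 3 * lam * (s2 / T1) ≤ 3 * lam * ((s1 + (J : ℝ) ^ 3 * q) / T1) :=
          mul_le_mul_of_nonneg_left h15 (by positivity)
      _ = _ := by ring
  have p4 : 1776 * (3 * lam * (s1 / T1)) = k4 * s1 := by
    rw [hT1]
    field_simp
    ring
  have hVV : 2960 * VV B ≤ 888 * (s2 - 2 * lam * s4 + lam ^ 2 * s0) +
      1776 * (3 / 2 * (2 * ((J : ℝ) ^ 2 * q) + 4 * lam ^ 2)) +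
      1776 * (lam * (6 * T1) + 3 * lam * (s1 / T1) +
        3 * lam * (J : ℝ) ^ 3 / T1 * q + 3 * lam ^ 2) + 1776 * (6 * (J : ℝ) ^ 3 * q) +
      29600 * T * Z + 2960 * (52 * T) + 2960 * (2 * s1 / T) := by
    have e1 : lam * (6 * T1 + 3 * (s2 / T1)) = lam * (6 * T1) + 3 * lam * (s2 / T1) := by ring
    rw [e1] at h7
    linarith
  have hcqq : cq * q = 1776 * (3 * (J : ℝ) ^ 2 * q +
      3 * lam * (J : ℝ) ^ 3 / T1 * q + 6 * (J : ℝ) ^ 3 * q) + 2520 * lam * (J : ℝ) ^ 2 * q +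
      128 * ((315 / 16 * (J : ℝ) ^ 3 + 750 * J) * q) := by
    rw [hcq]; ring
  have hk : κ = 4 * k4 := by rw [hk4]; ring
  rw [hk]
  have hmain : 1369 * s3 - 2960 * VV B ≤ 1260 * (s1 - s2) +
      128 * ((315 / 16 * (J : ℝ) ^ 3 + 750 * J) * q) + 128 * (2 / √(J : ℝ) * QS P2 B 0 0) := by
    linarith
  linarith

end Pool.Agent.H21.ET
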