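import Pool.Agent.H21.ET.Fin
import Pool.Agent.H21.ET.CutL

/-!
# The variance law on windows
-/

set_option autoImplicit false

open Finset

namespace Pool.Agent.H21.ET

open Pool.Agent.W247.ET Pool.Agent.H38.ETU

lemma log_le_sum (M L : ℕ) (hM : 1 ≤ M) (hML : M ≤ L) :
    Real.log (((L : ℝ) + 1) / M) ≤ ∑ n ∈ Icc M L, 1 / (n : ℝ) := by
  have hM0 : (0 : ℝ) < M := by exact_mod_cast hM
  induction L, hML using Nat.le_induction with
  | base =>
    rw [Icc_self, sum_singleton]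
    have h := Real.log_le_sub_one_of_pos (x := ((M : ℝ) + 1) / M) (by positivity)
    have e : ((M : ℝ) + 1) / M - 1 = 1 / M := by field_simp; ring
    rwa [e] at h
  | succ L hL ih =>
    rw [Finset.sum_Icc_succ_top (by omega)]
    have hL0 : (0 : ℝ) < L := by exact_mod_cast (by omega : 0 < L)
    push_cast
    have e : ((L : ℝ) + 1 + 1) / M = ((L : ℝ) + 1) / M * (((L : ℝ) + 1 + 1) / (L + 1)) := by
      field_simp
    rw [e, Real.log_mul (by positivity) (by positivity)]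
    have h := Real.log_le_sub_one_of_pos (x := ((L : ℝ) + 1 + 1) / (L + 1)) (by positivity)
    have e2 : ((L : ℝ) + 1 + 1) / (L + 1) - 1 = 1 / (L + 1) := by field_simp; ring
    rw [e2] at h
    linarith

lemma log_le_s0 (M N : ℕ) (hM : 1 ≤ M) (hMN : M ≤ N) :
    Real.log ((N : ℝ) / M) ≤ ∑ n ∈ Icc 1 (2 * N), chi M n / (n : ℝ) := by
  have hM0 : (0 : ℝ) < M := by exact_mod_cast hM
  have hN0 : (0 : ℝ) < N := by exact_mod_cast (by omega : 0 < N)
  have h1 : ∑ n ∈ Icc 1 (2 * N), chi M n / (n : ℝ) = ∑ n ∈ Icc M (2 * N), 1 / (n : ℝ) := by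
    have e : ∀ n : ℕ, chi M n / (n : ℝ) = if M ≤ n then 1 / (n : ℝ) else 0 := by
      intro n
      unfold chi
      split_ifs <;> simp
    simp only [e]
    rw [← sum_filter]
    apply sum_congr _ fun _ _ => rfl
    ext n
    simp only [mem_filter, mem_Icc]
    omega
  rw [h1]
  refine le_trans ?_ (log_le_sum M (2 * N) hM (by omega))
  apply Real.log_le_log (by positivity)
  apply div_le_div_of_nonneg_right _ hM0.le
  push_cast
  linarith

lemma sq_aux (m μ M : ℝ) (hM : 1 ≤ M) (h : m ^ 2 = μ * M) : (m + 1) ^ 2 ≤ 2 * (μ + 1) * M := by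
  have h1 : (m + 1) ^ 2 ≤ 2 * m ^ 2 + 2 := by linarith [sq_nonneg (m - 1), sq_nonneg m,
    (by ring : (m - 1) ^ 2 + (m + 1) ^ 2 = 2 * m ^ 2 + 2)]
  rw [h] at h1
  linarith

lemma amgm_aux (κ cS s3 m SB μ M : ℝ) (hκ : 0 < κ) (hcS : 0 < cS) (hs3 : 0 ≤ s3) (hm : 0 ≤ m)
    (hSB : 0 ≤ SB) (hμ : 0 ≤ μ) (hM : 1 ≤ M) (h : m ^ 2 = μ * M) (h4 : M * SB ^ 2 ≤ 2 * s3) :
    cS * ((m + 1) * SB) ≤ κ * s3 + cS ^ 2 / κ * (μ + 1) := by
  have hX0 : 0 ≤ (m + 1) * SB := by positivity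
  have hX : ((m + 1) * SB) ^ 2 ≤ 4 * (μ + 1) * s3 := by
    have a1 := sq_aux m μ M hM h
    calc ((m + 1) * SB) ^ 2 = (m + 1) ^ 2 * SB ^ 2 := by ring
      _ ≤ 2 * (μ + 1) * M * SB ^ 2 := mul_le_mul_of_nonneg_right a1 (sq_nonneg _)
      _ = 2 * (μ + 1) * (M * SB ^ 2) := by ring
      _ ≤ 2 * (μ + 1) * (2 * s3) := mul_le_mul_of_nonneg_left h4 (by positivity)
      _ = _ := by ring
  have hθ0 : 0 < κ / cS := by positivity
  have hY0 : 0 ≤ κ / cS * s3 + (μ + 1) / (κ / cS) := by positivity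
  have hY : (m + 1) * SB ≤ κ / cS * s3 + (μ + 1) / (κ / cS) := by
    refine (pow_le_pow_iff_left₀ hX0 hY0 two_ne_zero).1 (hX.trans ?_)
    have e : (κ / cS * s3 + (μ + 1) / (κ / cS)) ^ 2 =
        (κ / cS * s3 - (μ + 1) / (κ / cS)) ^ 2 + 4 * (μ + 1) * s3 := by
      field_simp
      ring
    rw [e]
    linarith [sq_nonneg (κ / cS * s3 - (μ + 1) / (κ / cS))]
  calc cS * ((m + 1) * SB) ≤ cS * (κ / cS * s3 + (μ + 1) / (κ / cS)) :=
        mul_le_mul_of_nonneg_left hY hcS.le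
    _ = κ * s3 + cS ^ 2 / κ * (μ + 1) := by
        field_simp

/-- the law on `[M, N]` for large `M` -/
theorem lawL0 (l g : ℕ) (hl : 1 ≤ l) (hlg : l ≤ g)
    (hcond : ((l : ℝ) + g - 1369 / 2520) ^ 2 < 4 * l * g) :
    ∃ δ : ℝ, 0 < δ ∧ ∃ C : ℝ, 0 ≤ C ∧ ∃ M₀ : ℕ, ∀ (A : Set ℕ) (M N : ℕ), M₀ ≤ M → 1 ≤ M →
      M ≤ N → δ * Real.log ((N : ℝ) / M) ≤ C * (1 + ((lowS A M).card : ℝ) ^ 2 / M) +
        DlowL l A M N + DhighL g A M (2 * N) := by
  have hl1 : (1 : ℝ) ≤ l := by exact_mod_cast hl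
  have hg1 : (1 : ℝ) ≤ g := by
    have : 1 ≤ g := by omega
    exact_mod_cast this
  set lam : ℝ := (l : ℝ) + g - 1369 / 2520 with hlam
  have hlam0 : 0 < lam := by rw [hlam]; linarith
  set η : ℝ := 4 * l * g - lam ^ 2 with hη
  have hη0 : 0 < η := by rw [hη]; linarith
  set G : ℝ := (2 * (g : ℝ) + 1) ^ 2 with hG
  have hG0 : 0 < G := by positivity
  set κ : ℝ := 315 * η / G with hκ
  have hκ0 : 0 < κ := by positivity
  have hκG : κ * G = 315 * η := by rw [hκ]; field_simp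
  obtain ⟨T, hT0, C, M₀, hfin⟩ := finite_formL lam hlam0 κ hκ0
  set c3 : ℝ := 4 * l * g + 2 * g + 1 with hc3
  have hc30 : 0 < c3 := by positivity
  -- the coefficient of the exceptional sums
  set cS : ℝ := 1260 * c3 + T with hcS
  have hcS0 : 0 < cS := by positivity
  set cl : ℝ := 1260 * c3 + T with hcl
  have hcl0 : 0 < cl := by positivity
  set ch : ℝ := 1260 + 2 * κ with hch
  have hch0 : 0 < ch := by positivity
  set c2 : ℝ := cl + ch with hc2
  have hc20 : 0 < c2 := by positivity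
  refine ⟨630 * η / c2, by positivity, (1260 * c3 + |C| + cS + cS ^ 2 / κ) / c2, by positivity,
    M₀, ?_⟩
  intro A M N hMM hM hMN
  have hM0 : (0 : ℝ) < M := by exact_mod_cast hM
  have hM1 : (1 : ℝ) ≤ M := by exact_mod_cast hM
  set B := cutL A M N with hB
  have hBsub : B ⊆ Icc M N := cutL_sub A M N
  have h1 := hfin B M N hMM hM hMN hBsub
  set R : ℕ → ℝ := fun n => (rep B n : ℝ) with hR
  set s1 : ℝ := ee R (2 * N) with hs1
  set s3 : ℝ := ∑ n ∈ Icc 1 (2 * N), (rep B n : ℝ) / n with hs3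
  set s0 : ℝ := ∑ n ∈ Icc 1 (2 * N), chi M n / (n : ℝ) with hs0
  set SB : ℝ := ∑ a ∈ B, 1 / (a : ℝ) with hSB
  set E1 : ℝ := ∑ n ∈ exc A M N, 1 / (n : ℝ) with hE1
  set m : ℝ := ((lowS A M).card : ℝ) with hm
  set μ : ℝ := m ^ 2 / M with hμ
  set Dl : ℝ := DlowL l A M N with hDl
  set Dh : ℝ := DhighL g A M (2 * N) with hDh
  have hm0 : 0 ≤ m := Nat.cast_nonneg _
  have hμ0 : 0 ≤ μ := by positivity
  have hDl0 : 0 ≤ Dl := DlowL_nonneg _ _ _ _
  have hDh0 : 0 ≤ Dh := DhighL_nonneg _ _ _ _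
  have hs0nn : 0 ≤ s0 := sum_nonneg fun n _ => div_nonneg (chi_nonneg _ _) (Nat.cast_nonneg _)
  have hs1nn : 0 ≤ s1 := ee_nonneg _ _
  have hs3nn : 0 ≤ s3 := sum_nonneg fun n _ => by positivity
  have hSB0 : 0 ≤ SB := sum_nonneg fun n _ => by positivity
  have hE10 : 0 ≤ E1 := sum_nonneg fun n _ => by positivity
  have h2 : s1 - 2 * ((l : ℝ) + g) * s3 + 4 * l * g * s0 ≤ Dh + c3 * (E1 + SB + Dl + 1) := by
    refine le_trans (le_of_eq ?_) (cut_quadL l g hl hlg A M N hM)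
    rw [hs1, hs3, hs0]
    unfold ee
    rw [mul_sum, mul_sum, ← sum_sub_distrib, ← sum_add_distrib]
    refine sum_congr rfl fun n hn => ?_
    have := cpos hn
    by_cases h : M ≤ n
    · rw [chi_of_le h]
      simp only [hR]
      field_simp
      ring
    · have h0 : rep B n = 0 := rep_low hBsub (by omega)
      rw [chi_of_lt (by omega)]
      simp only [hR, h0]
      simp
  have h3 : ∑ n ∈ (Icc M N).filter (fun n => rep B n = 0), 1 / (n : ℝ) ≤ Dl + E1 :=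
    cut_zerosL l A M N
  have h4 : E1 ≤ μ + m * SB := sum_exc A M N hM
  have h4b : M * SB ^ 2 ≤ 2 * s3 := sb_sq B M N hM hBsub
  have h5 : s1 ≤ G * s0 + Dh := cut_energyL g A M N hM
  have h6 : s3 ≤ s1 := by
    rw [hs3, hs1]
    unfold ee
    apply sum_le_sum
    intro n hn
    have hn0 := cpos hn
    apply div_le_div_of_nonneg_right _ hn0.le
    have : rep B n ≤ rep B n ^ 2 := Nat.le_self_pow two_ne_zero _
    show (rep B n : ℝ) ≤ (rep B n : ℝ) ^ 2
    exact_mod_cast this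
  -- the exceptional sums
  have h7 : cS * ((m + 1) * SB) ≤ κ * s1 + cS ^ 2 / κ * (μ + 1) := by
    have h8 := amgm_aux κ cS s3 m SB μ M hκ0 hcS0 hs3nn hm0 hSB0 hμ0 hM1
      (div_mul_cancel₀ (m ^ 2) hM0.ne').symm h4b
    have := mul_le_mul_of_nonneg_left h6 hκ0.le
    linarith
  have p1 : T * ∑ n ∈ (Icc M N).filter (fun n => rep B n = 0), 1 / (n : ℝ) ≤ T * (Dl + E1) :=
    mul_le_mul_of_nonneg_left h3 hT0.le
  have p2 : cS * (E1 + SB) ≤ cS * μ + (κ * s1 + cS ^ 2 / κ * (μ + 1)) := by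
    have := mul_le_mul_of_nonneg_left h4 hcS0.le
    have e : cS * (μ + m * SB) + cS * SB = cS * μ + cS * ((m + 1) * SB) := by ring
    linarith
  have p2b : 1260 * c3 * (E1 + SB) + T * E1 ≤ cS * (E1 + SB) := by
    have : 0 ≤ T * SB := by positivity
    have e : cS * (E1 + SB) = 1260 * c3 * (E1 + SB) + T * E1 + T * SB := by rw [hcS]; ring
    linarith
  have p3 : 2 * κ * s1 ≤ 630 * η * s0 + 2 * κ * Dh := by
    have := mul_le_mul_of_nonneg_left h5 (by positivity : 0 ≤ 2 * κ)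
    have e : 2 * κ * (G * s0 + Dh) = 2 * (κ * G) * s0 + 2 * κ * Dh := by ring
    rw [e, hκG] at this
    linarith
  have p4 : (1369 + 2520 * lam) * s3 = 2520 * ((l : ℝ) + g) * s3 := by
    rw [hlam]; ring
  rw [p4] at h1
  have hCabs := le_abs_self C
  have key : 630 * η * s0 ≤ 1260 * c3 + |C| + cS * μ + cS ^ 2 / κ * (μ + 1) + cl * Dl + ch * Dh := by
    have e1 : 1260 * η * s0 = 1260 * (4 * l * g * s0) - 1260 * lam ^ 2 * s0 := by rw [hη]; ring
    have e3 : cl * Dl = 1260 * (c3 * Dl) + T * Dl := by rw [hcl]; ring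
    have e4 : ch * Dh = 1260 * Dh + 2 * κ * Dh := by rw [hch]; ring
    have e5 : c3 * (E1 + SB + Dl + 1) = c3 * (E1 + SB) + c3 * Dl + c3 := by ring
    rw [e5] at h2
    have e6 : T * (Dl + E1) = T * Dl + T * E1 := by ring
    rw [e6] at p1
    rw [e3, e4]
    have e7 : 2520 * ((l : ℝ) + g) * s3 = 1260 * (2 * ((l : ℝ) + g) * s3) := by ring
    rw [e7] at h1
    have e8 : 1260 * c3 * (E1 + SB) = 1260 * (c3 * (E1 + SB)) := by ring
    rw [e8] at p2b
    linarith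
  have h13 : Real.log ((N : ℝ) / M) ≤ s0 := log_le_s0 M N hM hMN
  have h17 : 630 * η * Real.log ((N : ℝ) / M) ≤ 630 * η * s0 :=
    mul_le_mul_of_nonneg_left h13 (by positivity)
  have h18 : cl * Dl ≤ c2 * Dl := mul_le_mul_of_nonneg_right (by rw [hc2]; linarith) hDl0
  have h19 : ch * Dh ≤ c2 * Dh := mul_le_mul_of_nonneg_right (by rw [hc2]; linarith) hDh0
  have h20 : 1260 * c3 + |C| + cS * μ + cS ^ 2 / κ * (μ + 1) ≤
      (1260 * c3 + |C| + cS + cS ^ 2 / κ) * (1 + μ) := by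
    have : 0 ≤ (1260 * c3 + |C|) * μ := by positivity
    nlinarith
  have h21 : 630 * η * Real.log ((N : ℝ) / M) ≤
      ((1260 * c3 + |C| + cS + cS ^ 2 / κ) / c2 * (1 + μ) + Dl + Dh) * c2 := by
    have e : ((1260 * c3 + |C| + cS + cS ^ 2 / κ) / c2 * (1 + μ) + Dl + Dh) * c2 =
        (1260 * c3 + |C| + cS + cS ^ 2 / κ) * (1 + μ) + c2 * Dl + c2 * Dh := by
      field_simp
    rw [e]
    linarith
  rw [div_mul_eq_mul_div, div_le_iff₀ hc20]
  exact h21

/-- **The variance law on `[M, N]`.** -/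
theorem lawL (l g : ℕ) (hl : 1 ≤ l) (hlg : l ≤ g)
    (hcond : ((l : ℝ) + g - 1369 / 2520) ^ 2 < 4 * l * g) :
    ∃ δ : ℝ, 0 < δ ∧ ∃ C : ℝ, 0 ≤ C ∧ ∀ (A : Set ℕ) (M N : ℕ), 1 ≤ M → M ≤ N →
      δ * Real.log ((N : ℝ) / M) ≤ C * (1 + ((lowS A M).card : ℝ) ^ 2 / M) +
        DlowL l A M N + DhighL g A M N := by
  obtain ⟨δ, hδ, C, hC, M₀', h0⟩ := lawL0 l g hl hlg hcond
  -- replace `M₀` by a positive number
  obtain ⟨M₀, hM₀, hlaw⟩ : ∃ M₀ : ℕ, 1 ≤ M₀ ∧ ∀ (A : Set ℕ) (M N : ℕ), M₀ ≤ M → M ≤ N →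
      δ * Real.log ((N : ℝ) / M) ≤ C * (1 + ((lowS A M).card : ℝ) ^ 2 / M) +
        DlowL l A M N + DhighL g A M (2 * N) :=
    ⟨M₀' + 1, by omega, fun A M N h1 h2 => h0 A M N (by omega) (by omega) h2⟩
  have hM₀r : (1 : ℝ) ≤ M₀ := by exact_mod_cast hM₀
  have hl3 : 0 ≤ Real.log (3 * M₀) := Real.log_nonneg (by linarith)
  refine ⟨δ, hδ, C * (1 + M₀) + δ * Real.log (3 * M₀), by positivity, ?_⟩
  intro A M N hM hMN
  have hM0 : (0 : ℝ) < M := by exact_mod_cast hM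
  have hM1 : (1 : ℝ) ≤ M := by exact_mod_cast hM
  have hN0 : (0 : ℝ) < N := by exact_mod_cast (by omega : 0 < N)
  set μ : ℝ := ((lowS A M).card : ℝ) ^ 2 / M with hμ
  have hμ0 : 0 ≤ μ := by positivity
  have hDl0 := DlowL_nonneg l A M N
  have hDh0 := DhighL_nonneg g A M N
  set M₁ := max M M₀ with hM₁
  have hM₁M : M ≤ M₁ := le_max_left _ _
  have hM₁M₀ : M₀ ≤ M₁ := le_max_right _ _
  have hM₁0 : (0 : ℝ) < M₁ := by exact_mod_cast (by omega : 0 < M₁)
  have hM₁le : (M₁ : ℝ) ≤ M₀ * M := by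
    have : M₁ ≤ M₀ * M := by
      apply max_le
      · exact Nat.le_mul_of_pos_left M (by omega)
      · exact Nat.le_mul_of_pos_right M₀ (by omega)
    exact_mod_cast this
  have hbig : C * (1 + M₀) + δ * Real.log (3 * M₀) ≤
      (C * (1 + M₀) + δ * Real.log (3 * M₀)) * (1 + μ) := by
    have : 0 ≤ (C * (1 + M₀) + δ * Real.log (3 * M₀)) * μ := by positivity
    linarith
  by_cases hN : N < 2 * M₁
  · -- short windows
    have h1 : (N : ℝ) / M ≤ 3 * M₀ := by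
      rw [div_le_iff₀ hM0]
      have : (N : ℝ) ≤ 2 * M₁ := by exact_mod_cast hN.le
      nlinarith
    have h2 : Real.log ((N : ℝ) / M) ≤ Real.log (3 * M₀) := Real.log_le_log (by positivity) h1
    have h3 := mul_le_mul_of_nonneg_left h2 hδ.le
    have h4 : 0 ≤ C * (1 + M₀) := by positivity
    linarith
  · push Not at hN
    have hN2 : M₁ ≤ N / 2 := by omega
    have h1 := hlaw A M₁ (N / 2) hM₁M₀ hN2
    have h2 : DlowL l A M₁ (N / 2) ≤ DlowL l A M N := DlowL_mono l A hM₁M (by omega)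
    have h3 : DhighL g A M₁ (2 * (N / 2)) ≤ DhighL g A M N := DhighL_mono g A hM₁M (by omega)
    have h4 : 1 + ((lowS A M₁).card : ℝ) ^ 2 / M₁ ≤ (1 + M₀) * (1 + μ) := by
      rcases le_total M₀ M with h | h
      · have e : M₁ = M := max_eq_left h
        rw [e, ← hμ]
        have : 0 ≤ (M₀ : ℝ) * (1 + μ) := by positivity
        linarith
      · have e : M₁ = M₀ := max_eq_right h
        rw [e]
        have h5 : ((lowS A M₀).card : ℝ) ≤ M₀ := by
          have : (lowS A M₀).card ≤ (range M₀).card := by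
            classical
            exact card_le_card (filter_subset _ _)
          rw [card_range] at this
          exact_mod_cast this
        have h6 : ((lowS A M₀).card : ℝ) ^ 2 / M₀ ≤ M₀ := by
          rw [div_le_iff₀ (by linarith)]
          have := pow_le_pow_left₀ (Nat.cast_nonneg _) h5 2
          nlinarith
        have : 0 ≤ (1 + (M₀ : ℝ)) * μ := by positivity
        linarith
    have h5 : Real.log ((N : ℝ) / M) ≤ Real.log (((N / 2 : ℕ) : ℝ) / M₁) + Real.log (3 * M₀) := by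
      have hN20 : (0 : ℝ) < (N / 2 : ℕ) := by
        have : 0 < N / 2 := by omega
        exact_mod_cast this
      rw [← Real.log_mul (by positivity) (by positivity)]
      apply Real.log_le_log (by positivity)
      have h6 : (N : ℝ) ≤ 3 * (N / 2 : ℕ) := by
        have : N ≤ 3 * (N / 2) := by omega
        exact_mod_cast this
      have e : ((N / 2 : ℕ) : ℝ) / M₁ * (3 * M₀) = 3 * (N / 2 : ℕ) * (M₀ / M₁) := by ring
      rw [e, div_eq_mul_one_div (N : ℝ) M]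
      apply mul_le_mul h6 _ (by positivity) (by positivity)
      rw [div_le_div_iff₀ hM0 hM₁0]
      linarith
    have h6 := mul_le_mul_of_nonneg_left h5 hδ.le
    have h7 := mul_le_mul_of_nonneg_left h4 hC
    have h8 : C * ((1 + M₀) * (1 + μ)) + δ * Real.log (3 * M₀) ≤
        (C * (1 + M₀) + δ * Real.log (3 * M₀)) * (1 + μ) := by
      have : 0 ≤ δ * Real.log (3 * M₀) * μ := by positivity
      nlinarith
    linarith

end Pool.Agent.H21.ET
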