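import Mathlib

set_option autoImplicit false

/-!
# A basis with at most six representations on the intervals `[x, x ^ 2 / 144]`

The construction and the lemmas of this file are those of the hand-in
`MP_12a1af_nt.BoundedOnMostScales` of this run (helper38); `exists_set` is the form used here.
-/

open Finset

namespace Pool.Agent.H21.ET.Sharp

/-- `r_A(n)`: the number of ordered pairs of elements of `A` with sum `n` -/
noncomputable def rep (A : Set ℕ) (n : ℕ) : ℕ :=
  {p : ℕ × ℕ | p.1 ∈ A ∧ p.2 ∈ A ∧ p.1 + p.2 = n}.ncard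

/-- a prime between `V` and `2 V` -/
noncomputable def pr (V : ℕ) : ℕ :=
  if h : V ≠ 0 then (Nat.exists_prime_lt_and_le_two_mul V h).choose else 2

lemma pr_spec {V : ℕ} (h : V ≠ 0) : (pr V).Prime ∧ V < pr V ∧ pr V ≤ 2 * V := by
  unfold pr
  rw [dif_pos h]
  exact (Nat.exists_prime_lt_and_le_two_mul V h).choose_spec

/-- the parameters `V_j` -/
noncomputable def V : ℕ → ℕ
  | 0 => 2
  | j + 1 => 2 * V j * pr (V j)

lemma V_zero : V 0 = 2 := rfl

lemma V_succ (j : ℕ) : V (j + 1) = 2 * V j * pr (V j) := rfl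

lemma V_ge (j : ℕ) : 2 ^ (2 ^ j) ≤ V j := by
  induction j with
  | zero => simp [V_zero]
  | succ j ih =>
    have h0 : V j ≠ 0 := by
      have : 0 < 2 ^ (2 ^ j) := by positivity
      omega
    have h1 := (pr_spec h0).2.1
    rw [V_succ, pow_succ, pow_mul]
    calc (2 ^ 2 ^ j) ^ 2 = 2 ^ 2 ^ j * 2 ^ 2 ^ j := by ring
      _ ≤ V j * V j := Nat.mul_le_mul ih ih
      _ ≤ (2 * V j) * pr (V j) := Nat.mul_le_mul (by omega) h1.le

lemma V_pos (j : ℕ) : 2 ≤ V j := by
  refine le_trans ?_ (V_ge j)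
  calc 2 = 2 ^ 1 := by norm_num
    _ ≤ 2 ^ 2 ^ j := Nat.pow_le_pow_right (by norm_num) Nat.one_le_two_pow

lemma prV (j : ℕ) : (pr (V j)).Prime ∧ V j < pr (V j) ∧ pr (V j) ≤ 2 * V j :=
  pr_spec (by have := V_pos j; omega)

lemma V_lt_succ (j : ℕ) : 6 * V j ≤ V (j + 1) := by
  have h1 := V_pos j
  have h2 := (prV j).2.1
  rw [V_succ]
  have : 3 ≤ pr (V j) := by omega
  nlinarith

lemma V_mono : Monotone V := monotone_nat_of_le_succ (fun j => by have := V_lt_succ j; omega)

/-- the element number `k` of the second kind at level `j` -/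
noncomputable def y (j k : ℕ) : ℕ := 8 * V j * k + k ^ 2 % pr (V j)

/-- the set -/
def A : Set ℕ :=
  {n | n < 24} ∪ {n | ∃ j, 2 * V j ≤ n ∧ n < 12 * V j} ∪
    {n | ∃ j k, 1 ≤ k ∧ k < pr (V j) ∧ n = y j k}

lemma mem_small {n : ℕ} (h : n < 24) : n ∈ A := Or.inl (Or.inl h)

lemma mem_int {n : ℕ} (j : ℕ) (h1 : 2 * V j ≤ n) (h2 : n < 12 * V j) : n ∈ A :=
  Or.inl (Or.inr ⟨j, h1, h2⟩)

lemma mem_y {j k : ℕ} (h1 : 1 ≤ k) (h2 : k < pr (V j)) : y j k ∈ A :=
  Or.inr ⟨j, k, h1, h2, rfl⟩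

lemma mod_lt (j k : ℕ) : k ^ 2 % pr (V j) < pr (V j) := Nat.mod_lt _ (prV j).1.pos

/-- an element of `A` below `2 V_(j+1)` is smaller than `12 V_j` or of the second kind at level `j` -/
lemma elements {j a : ℕ} (ha : a ∈ A) (h : a < 2 * V (j + 1)) :
    a < 12 * V j ∨ ∃ k, 1 ≤ k ∧ k < pr (V j) ∧ a = y j k := by
  have hV := V_pos j
  rcases ha with (ha | ⟨i, h1, h2⟩) | ⟨i, k, h1, h2, rfl⟩
  · left
    have : a < 24 := ha
    omega
  · left
    rcases Nat.lt_or_ge j i with hi | hi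
    · have := V_mono (Nat.succ_le_of_lt hi)
      simp only [Nat.succ_eq_add_one] at this
      omega
    · have := V_mono hi
      omega
  · rcases Nat.lt_trichotomy j i with hi | hi | hi
    · exfalso
      have := V_mono (Nat.succ_le_of_lt hi)
      simp only [Nat.succ_eq_add_one] at this
      have h3 : 8 * V i * 1 ≤ 8 * V i * k := Nat.mul_le_mul_left _ h1
      unfold y at h
      omega
    · right
      subst hi
      exact ⟨k, h1, h2, rfl⟩
    · left
      have h3 := V_mono (Nat.succ_le_of_lt hi)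
      simp only [Nat.succ_eq_add_one] at h3
      rw [V_succ] at h3
      have h4 := mod_lt i k
      have h5 := V_pos i
      unfold y
      have h6 : 8 * V i * k + 8 * V i ≤ 8 * V i * pr (V i) := by
        have : k + 1 ≤ pr (V i) := h2
        calc 8 * V i * k + 8 * V i = 8 * V i * (k + 1) := by ring
          _ ≤ _ := Nat.mul_le_mul_left _ this
      have h7 := (prV i).2.2
      have h8 : 8 * V i * pr (V i) = 4 * (2 * V i * pr (V i)) := by ring
      omega

lemma finite_pairs (B : Set ℕ) (n : ℕ) : {p : ℕ × ℕ | p.1 ∈ B ∧ p.2 ∈ B ∧ p.1 + p.2 = n}.Finite := by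
  refine (Finset.finite_toSet (Finset.HasAntidiagonal.antidiagonal n)).subset ?_
  rintro ⟨a, b⟩ ⟨-, -, h⟩
  simpa using h

lemma rep_le_succ (B : Set ℕ) (n : ℕ) : rep B n ≤ n + 1 := by
  unfold rep
  calc _ ≤ ((Finset.HasAntidiagonal.antidiagonal n : Finset (ℕ × ℕ)) : Set (ℕ × ℕ)).ncard := by
        refine Set.ncard_le_ncard ?_ (Finset.finite_toSet _)
        rintro ⟨a, b⟩ ⟨-, -, h⟩
        simpa using h
    _ = n + 1 := by rw [Set.ncard_coe_finset]; simp

lemma one_le_rep {B : Set ℕ} {a b n : ℕ} (ha : a ∈ B) (hb : b ∈ B) (h : a + b = n) : 1 ≤ rep B n := by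
  unfold rep
  rw [Nat.one_le_iff_ne_zero, Ne, Set.ncard_eq_zero (finite_pairs B n)]
  intro he
  have : (a, b) ∈ {p : ℕ × ℕ | p.1 ∈ B ∧ p.2 ∈ B ∧ p.1 + p.2 = n} := ⟨ha, hb, h⟩
  rw [he] at this
  exact this

/-- every natural number is a sum of two elements of `A` -/
lemma basis (n : ℕ) : 1 ≤ rep A n := by
  by_cases hn : n < 24
  · exact one_le_rep (mem_small (show 0 < 24 by norm_num)) (mem_small hn) (by omega)
  push Not at hn
  -- find the level
  obtain ⟨j, hj1, hj2⟩ : ∃ j, 4 * V j ≤ n ∧ n < 4 * V (j + 1) := by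
    have hex : ∃ i, n < 4 * V i := by
      refine ⟨n, ?_⟩
      have h1 := V_ge n
      have h2 : n < 2 ^ n := Nat.lt_two_pow_self
      have h3 : 2 ^ n < 2 ^ 2 ^ n := Nat.pow_lt_pow_right (by norm_num) h2
      omega
    classical
    have hne : Nat.find hex ≠ 0 := by
      intro h0
      have := Nat.find_spec hex
      rw [h0, V_zero] at this
      omega
    obtain ⟨m, hm⟩ := Nat.exists_eq_succ_of_ne_zero hne
    refine ⟨m, ?_, ?_⟩
    · have := Nat.find_min hex (m := m) (by omega)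
      omega
    · have := Nat.find_spec hex
      rw [hm] at this
      exact this
  have hV := V_pos j
  obtain ⟨hp1, hp2, hp3⟩ := prV j
  by_cases hc : n < 24 * V j - 1
  · -- two elements of the interval
    by_cases hd : n < 14 * V j
    · exact one_le_rep (a := 2 * V j) (b := n - 2 * V j) (mem_int j le_rfl (by omega))
        (mem_int j (by omega) (by omega)) (by omega)
    · exact one_le_rep (a := 12 * V j - 1) (b := n - (12 * V j - 1))
        (mem_int j (by omega) (by omega)) (mem_int j (by omega) (by omega)) (by omega)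
  · push Not at hc
    set q := pr (V j) with hq
    set k := (n - 2 * V j - q) / (8 * V j) with hk
    have hpos : 0 < 8 * V j := by omega
    have h1 : 8 * V j * k ≤ n - 2 * V j - q := Nat.mul_div_le _ _
    have h2 : n - 2 * V j - q < 8 * V j * (k + 1) := by
      exact Nat.lt_mul_div_succ _ hpos
    have hk1 : 1 ≤ k := by
      rw [hk]
      rw [Nat.le_div_iff_mul_le hpos]
      omega
    have hk2 : k < q := by
      rw [hk, Nat.div_lt_iff_lt_mul hpos]
      have h3 : 4 * V (j + 1) = q * (8 * V j) := by rw [V_succ]; ring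
      omega
    have hm : k ^ 2 % q < q := mod_lt j k
    have h2' : n - 2 * V j - q < 8 * V j * k + 8 * V j := by
      calc _ < 8 * V j * (k + 1) := h2
        _ = _ := by ring
    have hy : y j k = 8 * V j * k + k ^ 2 % q := rfl
    refine one_le_rep (a := y j k) (b := n - y j k) (mem_y hk1 hk2) (mem_int j ?_ ?_) ?_
    · omega
    · omega
    · omega

/-- at most two elements of the second kind at level `j` in an interval of length `12 V_j` -/
lemma few (j n : ℕ) : {a : ℕ | (∃ k, a = y j k) ∧ a ≤ n ∧ n < a + 12 * V j}.ncard ≤ 2 := by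
  have hV := V_pos j
  have hp := (prV j).2.2
  have hpos : 0 < 8 * V j := by omega
  calc _ ≤ (({y j (n / (8 * V j)), y j (n / (8 * V j) - 1)} : Finset ℕ) : Set ℕ).ncard := by
        refine Set.ncard_le_ncard ?_ (Finset.finite_toSet _)
        rintro a ⟨⟨k, rfl⟩, h1, h2⟩
        have hm := mod_lt j k
        unfold y at h1 h2
        have h3 : k ≤ n / (8 * V j) := by
          rw [Nat.le_div_iff_mul_le hpos, mul_comm]
          omega
        have h4 : n / (8 * V j) < k + 2 := by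
          rw [Nat.div_lt_iff_lt_mul hpos]
          have : (k + 2) * (8 * V j) = 8 * V j * k + 16 * V j := by ring
          omega
        simp only [Finset.coe_insert, Finset.coe_singleton, Set.mem_insert_iff,
          Set.mem_singleton_iff]
        rcases Nat.lt_or_ge k (n / (8 * V j)) with h5 | h5
        · right
          congr 1
          omega
        · left
          congr 1
          omega
    _ ≤ 2 := by
        rw [Set.ncard_coe_finset]
        exact Finset.card_le_two

/-- the elements of the second kind form a Sidon set -/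
lemma sidon (j n : ℕ) : {p : ℕ × ℕ | (∃ k, k < pr (V j) ∧ p.1 = y j k) ∧
    (∃ l, l < pr (V j) ∧ p.2 = y j l) ∧ p.1 + p.2 = n}.ncard ≤ 2 := by
  have hV := V_pos j
  obtain ⟨hp1, hp2, hp3⟩ := prV j
  set q := pr (V j) with hq
  have : Fact q.Prime := ⟨hp1⟩
  by_cases hne : ∃ k l, k < q ∧ l < q ∧ y j k + y j l = n
  swap
  · have : {p : ℕ × ℕ | (∃ k, k < q ∧ p.1 = y j k) ∧
        (∃ l, l < q ∧ p.2 = y j l) ∧ p.1 + p.2 = n} = ∅ := by
      ext ⟨a, b⟩
      simp only [Set.mem_ofPred_eq, Set.mem_empty_iff_false, iff_false]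
      rintro ⟨⟨k, hk, rfl⟩, ⟨l, hl, rfl⟩, h⟩
      exact hne ⟨k, l, hk, hl, h⟩
    rw [this, Set.ncard_empty]
    norm_num
  obtain ⟨k0, l0, hk0, hl0, h0⟩ := hne
  calc _ ≤ (({(y j k0, y j l0), (y j l0, y j k0)} : Finset (ℕ × ℕ)) : Set (ℕ × ℕ)).ncard := by
        refine Set.ncard_le_ncard ?_ (Finset.finite_toSet _)
        rintro ⟨a, b⟩ ⟨⟨k, hk, h1⟩, ⟨l, hl, h2⟩, h⟩
        simp only at h1 h2 h
        subst h1 h2
        have m1 : k ^ 2 % q < q := mod_lt j k
        have m2 : l ^ 2 % q < q := mod_lt j l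
        have m3 : k0 ^ 2 % q < q := mod_lt j k0
        have m4 : l0 ^ 2 % q < q := mod_lt j l0
        have u1 : y j k = 8 * V j * k + k ^ 2 % q := rfl
        have u2 : y j l = 8 * V j * l + l ^ 2 % q := rfl
        have u3 : y j k0 = 8 * V j * k0 + k0 ^ 2 % q := rfl
        have u4 : y j l0 = 8 * V j * l0 + l0 ^ 2 % q := rfl
        rw [u1, u2] at h
        rw [u3, u4] at h0
        have hpos : 0 < 8 * V j := by omega
        -- the sums of the indices agree
        have e1 : 8 * V j * (k + l) + (k ^ 2 % q + l ^ 2 % q) =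
            8 * V j * (k0 + l0) + (k0 ^ 2 % q + l0 ^ 2 % q) := by
          have : 8 * V j * (k + l) = 8 * V j * k + 8 * V j * l := by ring
          have : 8 * V j * (k0 + l0) = 8 * V j * k0 + 8 * V j * l0 := by ring
          omega
        have b1 : k ^ 2 % q + l ^ 2 % q < 8 * V j := by omega
        have b2 : k0 ^ 2 % q + l0 ^ 2 % q < 8 * V j := by omega
        have e2 : k + l = k0 + l0 := by
          have d1 : (8 * V j * (k + l) + (k ^ 2 % q + l ^ 2 % q)) / (8 * V j) = k + l := by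
            rw [Nat.mul_add_div hpos, Nat.div_eq_of_lt b1, add_zero]
          have d2 : (8 * V j * (k0 + l0) + (k0 ^ 2 % q + l0 ^ 2 % q)) / (8 * V j) = k0 + l0 := by
            rw [Nat.mul_add_div hpos, Nat.div_eq_of_lt b2, add_zero]
          rw [← d1, ← d2, e1]
        have e3 : k ^ 2 % q + l ^ 2 % q = k0 ^ 2 % q + l0 ^ 2 % q := by
          rw [e2] at e1
          omega
        have e4 : ((k : ZMod q)) ^ 2 + (l : ZMod q) ^ 2 = (k0 : ZMod q) ^ 2 + (l0 : ZMod q) ^ 2 := by
          have := congrArg (fun x : ℕ => (x : ZMod q)) e3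
          simpa using this
        have e5 : (k : ZMod q) + l = k0 + l0 := by
          have := congrArg (fun x : ℕ => (x : ZMod q)) e2
          simpa using this
        have two_ne : (2 : ZMod q) ≠ 0 := by
          intro h2
          have : ((2 : ℕ) : ZMod q) = 0 := by exact_mod_cast h2
          rw [ZMod.natCast_eq_zero_iff] at this
          have := Nat.le_of_dvd (by norm_num) this
          omega
        have e6 : (2 : ZMod q) * (((k : ZMod q) - k0) * ((k : ZMod q) - l0)) = 0 := by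
          have hl' : (l : ZMod q) = k0 + l0 - k := by linear_combination e5
          rw [hl'] at e4
          linear_combination e4
        rcases mul_eq_zero.mp ((mul_eq_zero.mp e6).resolve_left two_ne) with h7 | h7
        · have h8 : (k : ZMod q) = k0 := sub_eq_zero.mp h7
          have h9 : k = k0 := by
            have := (ZMod.natCast_eq_natCast_iff' k k0 q).mp h8
            rwa [Nat.mod_eq_of_lt hk, Nat.mod_eq_of_lt hk0] at this
          have h10 : l = l0 := by omega
          subst h9 h10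
          simp
        · have h8 : (k : ZMod q) = l0 := sub_eq_zero.mp h7
          have h9 : k = l0 := by
            have := (ZMod.natCast_eq_natCast_iff' k l0 q).mp h8
            rwa [Nat.mod_eq_of_lt hk, Nat.mod_eq_of_lt hl0] at this
          have h10 : l = k0 := by omega
          subst h9 h10
          simp
    _ ≤ 2 := by
        rw [Set.ncard_coe_finset]
        exact Finset.card_le_two

/-- `r_A ≤ 6` on the long intervals -/
lemma bounded {j n : ℕ} (h1 : 24 * V j ≤ n) (h2 : n < 2 * V (j + 1)) : rep A n ≤ 6 := by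
  have hV := V_pos j
  set S1 : Set (ℕ × ℕ) := {p | (∃ k, p.1 = y j k) ∧ p.2 < 12 * V j ∧ p.1 + p.2 = n} with hS1
  set S2 : Set (ℕ × ℕ) := {p | (∃ k, p.2 = y j k) ∧ p.1 < 12 * V j ∧ p.1 + p.2 = n} with hS2
  set S3 : Set (ℕ × ℕ) := {p : ℕ × ℕ | (∃ k, k < pr (V j) ∧ p.1 = y j k) ∧
    (∃ l, l < pr (V j) ∧ p.2 = y j l) ∧ p.1 + p.2 = n} with hS3
  have hanti : ∀ S : Set (ℕ × ℕ), (∀ p ∈ S, p.1 + p.2 = n) → S.Finite := by
    intro S hS
    refine (Finset.finite_toSet (Finset.HasAntidiagonal.antidiagonal n)).subset ?_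
    rintro ⟨a, b⟩ h
    simpa using hS _ h
  have f1 : S1.Finite := hanti _ (fun p hp => hp.2.2)
  have f2 : S2.Finite := hanti _ (fun p hp => hp.2.2)
  have f3 : S3.Finite := hanti _ (fun p hp => hp.2.2)
  have fY : {a : ℕ | (∃ k, a = y j k) ∧ a ≤ n ∧ n < a + 12 * V j}.Finite :=
    (Set.finite_Iic n).subset (fun a ha => ha.2.1)
  have c1 : S1.ncard ≤ 2 := by
    refine le_trans ?_ (few j n)
    refine Set.ncard_le_ncard_of_injOn Prod.fst ?_ ?_ fY
    · rintro ⟨a, b⟩ ⟨h3, h4, h5⟩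
      simp only at h3 h4 h5
      exact ⟨h3, by simp only; omega, by simp only; omega⟩
    · rintro ⟨a, b⟩ ⟨-, -, h5⟩ ⟨a', b'⟩ ⟨-, -, h5'⟩ h
      simp only at h5 h5' h
      ext <;> simp only <;> omega
  have c2 : S2.ncard ≤ 2 := by
    refine le_trans ?_ (few j n)
    refine Set.ncard_le_ncard_of_injOn Prod.snd ?_ ?_ fY
    · rintro ⟨a, b⟩ ⟨h3, h4, h5⟩
      simp only at h3 h4 h5
      exact ⟨h3, by simp only; omega, by simp only; omega⟩
    · rintro ⟨a, b⟩ ⟨-, -, h5⟩ ⟨a', b'⟩ ⟨-, -, h5'⟩ h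
      simp only at h5 h5' h
      ext <;> simp only <;> omega
  have c3 : S3.ncard ≤ 2 := sidon j n
  have hsub : {p : ℕ × ℕ | p.1 ∈ A ∧ p.2 ∈ A ∧ p.1 + p.2 = n} ⊆ S1 ∪ S2 ∪ S3 := by
    rintro ⟨a, b⟩ ⟨ha, hb, hab⟩
    simp only at ha hb hab
    rcases elements (j := j) ha (by omega) with h3 | ⟨k, hk1, hk2, hk3⟩
    · rcases elements (j := j) hb (by omega) with h4 | ⟨l, hl1, hl2, hl3⟩
      · omega
      · exact Or.inl (Or.inr ⟨⟨l, hl3⟩, h3, hab⟩)
    · rcases elements (j := j) hb (by omega) with h4 | ⟨l, hl1, hl2, hl3⟩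
      · exact Or.inl (Or.inl ⟨⟨k, hk3⟩, h4, hab⟩)
      · exact Or.inr ⟨⟨k, hk2, hk3⟩, ⟨l, hl2, hl3⟩, hab⟩
  calc rep A n ≤ (S1 ∪ S2 ∪ S3).ncard := Set.ncard_le_ncard hsub ((f1.union f2).union f3)
    _ ≤ (S1 ∪ S2).ncard + S3.ncard := Set.ncard_union_le _ _
    _ ≤ (S1.ncard + S2.ncard) + S3.ncard := by gcongr; exact Set.ncard_union_le _ _
    _ ≤ 6 := by omega

/-- **Long intervals without exceptional numbers.** -/
theorem exists_set : ∃ A : Set ℕ, (∀ n, 1 ≤ rep A n) ∧
    ∀ x₀ : ℕ, ∃ x, x₀ ≤ x ∧ ∀ n, x ≤ n → 144 * n ≤ x ^ 2 → rep A n ≤ 6 := by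
  refine ⟨A, basis, fun x₀ => ⟨24 * V x₀, ?_, fun n h1 h2 => ?_⟩⟩
  · have h1 := V_ge x₀
    have h2 : x₀ < 2 ^ x₀ := Nat.lt_two_pow_self
    have h3 : 2 ^ x₀ < 2 ^ 2 ^ x₀ := Nat.pow_lt_pow_right (by norm_num) h2
    omega
  · refine bounded h1 ?_
    obtain ⟨-, hp, -⟩ := prV x₀
    have hV := V_pos x₀
    rw [V_succ]
    have h3 : 144 * n ≤ 576 * (V x₀ * V x₀) := by
      calc 144 * n ≤ (24 * V x₀) ^ 2 := h2
        _ = _ := by ring
    have h4 : V x₀ * V x₀ < V x₀ * pr (V x₀) := Nat.mul_lt_mul_of_pos_left hp (by omega)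
    calc n ≤ 4 * (V x₀ * V x₀) := by omega
      _ < 4 * (V x₀ * pr (V x₀)) := by omega
      _ = 2 * (2 * V x₀ * pr (V x₀)) := by ring

end Pool.Agent.H21.ET.Sharp
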